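import Pool.Agent.H249.ZG.Dir

/-! Abelian fields. -/

set_option autoImplicit false
set_option linter.unusedSectionVars false

open NumberField Module Polynomial
open scoped Classical

namespace Pool.Agent.H249.ZG

/-- a cyclic group has an injective character -/
theorem exists_char {G : Type} [Group G] [Finite G] (h : IsCyclic G) :
    ∃ χ : G →* ℂ, Function.Injective χ := by
  obtain ⟨g, hg⟩ := h.exists_generator
  have hm : Nat.card G ≠ 0 := Nat.card_pos.ne'
  have hprim := Complex.isPrimitiveRoot_exp (Nat.card G) hm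
  have hu := hprim.isUnit hm
  have ho : orderOf hu.unit = orderOf g := by
    rw [orderOf_eq_card_of_forall_mem_zpowers hg, ← orderOf_units]
    exact hprim.eq_orderOf.symm
  refine ⟨(Units.coeHom ℂ).comp (monoidHomOfForallMemZpowers hg ho.dvd), ?_⟩
  have h1 : Function.Injective (monoidHomOfForallMemZpowers hg ho.dvd) := by
    rw [injective_iff_map_eq_one]
    intro x hx
    obtain ⟨i, rfl⟩ := Subgroup.mem_zpowers_iff.1 (hg x)
    rw [map_zpow, monoidHomOfForallMemZpowers_apply_gen, ← orderOf_dvd_iff_zpow_eq_one, ho,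
      orderOf_dvd_iff_zpow_eq_one] at hx
    exact hx
  exact Units.val_injective.comp h1

section
variable {n : ℕ} {F : Type} [Field F] [NumberField F]
variable {K : Spaces}

theorem exists_aut [IsGalois ℚ F] (σ σ' : F →+* ℂ) : ∃ b : (⊤ : Subgroup (Aut F)),
    co σ b = σ' := by
  obtain ⟨ρ, hρ⟩ := ComplexEmbedding.exists_comp_symm_eq_of_comp_eq (k := ℚ) σ σ'
    (Subsingleton.elim _ _)
  exact ⟨⟨ρ.symm, Subgroup.mem_top _⟩, hρ⟩

theorem spanned_of_one [IsGalois ℚ F] {χ : Chr (⊤ : Subgroup (Aut F))} {α : Sym F}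
    (hα : α ∈ ker n F) {σ₁ : F →+* ℂ} (h : chiSum χ (pol n α) σ₁ ≠ 0) : Spanned n χ := by
  intro v hv
  have h1 : v = (v σ₁ / chiSum χ (pol n α) σ₁) • chiSum χ (pol n α) := by
    funext σ
    obtain ⟨c, hc⟩ := exists_aut σ₁ σ
    have h3 := hv.2 c σ₁
    have h4 := chiSum_comp χ (pol n α) σ₁ c
    rw [hc] at h3 h4
    rw [Pi.smul_apply, smul_eq_mul, div_mul_eq_mul_div, eq_div_iff h, ← h3, ← h4]
    ring
  rw [h1]
  exact Submodule.smul_mem _ _ (Submodule.subset_span ⟨α, hα, rfl⟩)

theorem one_of_spanned (hn : 2 ≤ n) [IsGalois ℚ F] {χ : Chr (⊤ : Subgroup (Aut F))}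
    (hχ : Faithful χ) (hpar : Odd n → IsTotallyReal F)
    (hpar' : Even n → IsTotallyComplex F) (h : Spanned n χ) :
    ∃ α ∈ ker n F, ∃ σ : F →+* ℂ, chiSum χ (pol n α) σ ≠ 0 := by
  by_contra hcon
  push Not at hcon
  let σ₀ : F →+* ℂ := Classical.arbitrary _
  have hinj : ∀ a c : (⊤ : Subgroup (Aut F)), co σ₀ (a : Aut F) =
      co σ₀ (c : Aut F) → a = c := by
    intro a c h
    apply Subtype.ext
    ext x
    exact σ₀.injective (DFunLike.congr_fun h x)
  have hne : ∀ a, χ a ≠ 0 := by
    intro a h0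
    have h1 : χ a * χ a⁻¹ = 1 := by rw [← map_mul, mul_inv_cancel, map_one]
    rw [h0, zero_mul] at h1
    exact zero_ne_one h1
  choose c hc using exists_aut (F := F) σ₀
  have hcu : ∀ a : (⊤ : Subgroup (Aut F)), c (co σ₀ a) = a :=
    fun a => hinj _ _ (hc _)
  have hcm : ∀ (σ : F →+* ℂ) (a : (⊤ : Subgroup (Aut F))),
      c (co σ a) = c σ * a := by
    intro σ a
    rw [← hcu (c σ * a)]
    congr 1
    conv_lhs => rw [← hc σ]
    rfl
  set τ := c (ComplexEmbedding.conjugate σ₀) with hτ
  have hcτ : ∀ σ : F →+* ℂ, c (ComplexEmbedding.conjugate σ) = τ * c σ := by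
    intro σ
    have h1 : ComplexEmbedding.conjugate σ =
        co (ComplexEmbedding.conjugate σ₀) (c σ : Aut F) := by
      conv_lhs => rw [← hc σ]
      rfl
    rw [h1, hcm]
  have hcc : ComplexEmbedding.conjugate (ComplexEmbedding.conjugate σ₀) = σ₀ := by
    ext x
    simp
  have h1 : c σ₀ = 1 := by
    have := hcu 1
    exact this
  have hττ : τ * τ = 1 := by
    have h2 := hcτ (ComplexEmbedding.conjugate σ₀)
    rw [hcc, h1] at h2
    exact h2.symm
  have hχτ : χ τ = (-1) ^ (n - 1) := by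
    rcases Nat.even_or_odd n with h | h
    · have hodd : Odd (n - 1) := by
        obtain ⟨k, hk⟩ := h
        exact ⟨k - 1, by omega⟩
      have h8 : χ τ ≠ 1 := by
        intro h'
        have h9 : τ = 1 := hχ (by rw [h', map_one])
        have h10 : ComplexEmbedding.IsReal σ₀ := by
          rw [ComplexEmbedding.isReal_iff, ← hc (ComplexEmbedding.conjugate σ₀), ← hτ, h9]
          rfl
        have h11 := (hpar' h).isComplex (InfinitePlace.mk σ₀)
        rw [← InfinitePlace.not_isReal_iff_isComplex] at h11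
        exact h11 ⟨σ₀, h10, rfl⟩
      have h9 : χ τ * χ τ = 1 := by rw [← map_mul, hττ, map_one]
      have h10 : (χ τ - 1) * (χ τ + 1) = 0 := by
        ring_nf
        rw [sq, h9]
        ring
      rw [hodd.neg_one_pow]
      rcases mul_eq_zero.1 h10 with h11 | h11
      · exact absurd (sub_eq_zero.1 h11) h8
      · exact eq_neg_of_add_eq_zero_left h11
    · have heven : Even (n - 1) := by
        obtain ⟨k, hk⟩ := h
        exact ⟨k, by omega⟩
      have h7 : τ = 1 := by
        have h8 := (hpar h).isReal (InfinitePlace.mk σ₀)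
        rw [InfinitePlace.isReal_mk_iff, ComplexEmbedding.isReal_iff] at h8
        rw [hτ, h8, h1]
      rw [heven.neg_one_pow, h7, map_one]
  let v : (F →+* ℂ) → ℂ := fun σ => (χ (c σ))⁻¹
  have hv : IsType n χ v := by
    constructor
    · intro σ
      change (χ (c (ComplexEmbedding.conjugate σ)))⁻¹ = (-1) ^ (n - 1) * (χ (c σ))⁻¹
      rw [hcτ, map_mul, mul_inv, hχτ]
      congr 1
      rw [← inv_pow]
      norm_num
    · intro a σ
      change χ a * (χ (c (co σ a)))⁻¹ = (χ (c σ))⁻¹
      rw [hcm, map_mul, mul_inv]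
      field_simp [hne a, hne (c σ)]
  have h2 := h v hv
  have h3 : Submodule.span ℂ {w | ∃ α ∈ ker n F, w = chiSum χ (pol n α)} = ⊥ := by
    rw [Submodule.span_eq_bot]
    rintro _ ⟨α, hα, rfl⟩
    funext σ
    exact hcon α hα σ
  rw [h3, Submodule.mem_bot] at h2
  have h4 := congrFun h2 σ₀
  change (χ (c σ₀))⁻¹ = 0 at h4
  rw [h1, map_one, inv_one] at h4
  exact one_ne_zero h4

/-- **Abelian fields**: one nonvanishing sum for each cyclic subfield of the right parity. -/
theorem from_one (hK : Facts n K) (D : ℕ) : ∀ (F : Type) [Field F] [NumberField F],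
    finrank ℚ F < D → IsAbelianGalois ℚ F →
    (∀ (F' : Type) [Field F'] [NumberField F'], (F' →+* F) → CyclicRightParity n F' →
      OneSum n F') → Zagier n F := by
  induction D with
  | zero => intro F _ _ h; exact absurd h (Nat.not_lt_zero _)
  | succ D ih =>
    intro F _ _ hD hF h
    refine from_cyclic hK hF fun F' _ _ φ hgal hcyc hp1 hp2 => ?_
    obtain ⟨χ, hχ, α, hα, σ, hσ⟩ := h F' φ ⟨hgal, hcyc, hp1, hp2⟩
    refine zagier_of_spanned hK χ hχ ?_ (spanned_of_one hα hσ)
    intro B _ hB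
    have hB := ne_bot_of_prime hB
    let _ : Algebra F' F := φ.toAlgebra
    have hab : IsAbelianGalois ℚ F' := IsAbelianGalois.tower_bot ℚ F' F
    refine ih (Fix B) ?_
      (IsAbelianGalois.tower_bot ℚ (IntermediateField.fixedField B) F') fun F'' _ _ ψ hc' => ?_
    · have h1 := finrank_mul_finrank ℚ (IntermediateField.fixedField B) F'
      rw [IntermediateField.finrank_fixedField_eq_card] at h1
      have h2 : 1 < Nat.card B := by
        rw [Finite.one_lt_card_iff_nontrivial]
        exact (Subgroup.nontrivial_iff_ne_bot B).2 hB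
      have h3 : 0 < finrank ℚ (IntermediateField.fixedField B) := finrank_pos
      have h4 : finrank ℚ (IntermediateField.fixedField B) < finrank ℚ F' := by nlinarith
      have h5 := finrank_mul_finrank ℚ F' F
      have h6 : 0 < finrank F' F := finrank_pos
      have h7 : finrank ℚ F' ≤ finrank ℚ F := by nlinarith
      exact lt_of_lt_of_le h4 (h7.trans (Nat.lt_succ_iff.1 hD))
    · exact h F'' (φ.comp ((inc B).comp ψ)) hc'

theorem one_of_zagier (hn : 2 ≤ n) (hK : Facts n K) (hF : CyclicRightParity n F)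
    (hZ : Zagier n F) : OneSum n F := by
  obtain ⟨hgal, hcyc, hp1, hp2⟩ := hF
  have h1 : IsCyclic (⊤ : Subgroup (Aut F)) :=
    isCyclic_of_surjective (Subgroup.topEquiv.symm : Aut F ≃* _)
      (Subgroup.topEquiv.symm : Aut F ≃* _).surjective
  obtain ⟨χ, hχ⟩ := exists_char h1
  exact ⟨χ, hχ, one_of_spanned hn hχ hp1 hp2 (spanned_of_zagier hn hK χ hZ)⟩

theorem abelian_iff (hn : 2 ≤ n) (hK : Facts n K) :
    (∀ (F : Type) [Field F] [NumberField F], IsAbelianGalois ℚ F → Zagier n F) ↔
    ∀ (F : Type) [Field F] [NumberField F], CyclicRightParity n F → OneSum n F := by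
  constructor
  · intro h F _ _ hF
    have hgal := hF.1
    have hcyc := hF.2.1
    have hab : IsAbelianGalois ℚ F :=
      { toIsGalois := hgal
        toIsMulCommutative := ⟨⟨fun a b => (IsCyclic.commGroup (α := F ≃ₐ[ℚ] F)).mul_comm a b⟩⟩ }
    exact one_of_zagier hn hK hF (h F hab)
  · intro h F _ _ hF
    exact from_one hK _ F (Nat.lt_succ_self _) hF fun F' _ _ _ hF' => h F' hF'

end

end Pool.Agent.H249.ZG
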