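import Mathlib

/-! The norm relation of a noncyclic group of order `p q` (the group theory follows helper5's
`Pool.Agent.Q5.RG.PQ`). -/

set_option autoImplicit false
set_option linter.unusedSectionVars false

namespace Pool.Agent.H249.ZG

open scoped Classical

section
variable {G : Type} [Group G] [Fintype G] {p q : ℕ}

theorem card_cases (hp : p.Prime) (hq : q.Prime) (hc : Nat.card G = p * q) {B : Subgroup G}
    (hB : B ≠ ⊥) (hB' : B ≠ ⊤) : (Nat.card B).Prime := by
  have h1 : Nat.card B ∣ p * q := by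
    rw [← hc]
    exact Subgroup.card_subgroup_dvd_card B
  obtain ⟨a, b, ha, hb, hab⟩ := Nat.dvd_mul.1 h1
  have hne1 : Nat.card B ≠ 1 := fun h => hB ((Subgroup.card_eq_one).1 h)
  have hne : Nat.card B ≠ Nat.card G := fun h => hB' ((Subgroup.card_eq_iff_eq_top B).1 h)
  rcases (Nat.dvd_prime hp).1 ha with rfl | rfl
  · rcases (Nat.dvd_prime hq).1 hb with rfl | rfl
    · exact absurd (by rw [← hab]) hne1
    · rw [← hab, one_mul]; exact hq
  · rcases (Nat.dvd_prime hq).1 hb with rfl | rfl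
    · rw [← hab, mul_one]; exact hp
    · exact absurd (by rw [hc, ← hab]) hne

theorem zpowers_ne_bot {g : G} (hg : g ≠ 1) : Subgroup.zpowers g ≠ ⊥ :=
  fun h => hg (Subgroup.zpowers_eq_bot.1 h)

theorem zpowers_ne_top (hn : ¬ IsCyclic G) (g : G) : Subgroup.zpowers g ≠ ⊤ := fun h =>
  hn ⟨g, fun x => by
    have h1 : x ∈ (⊤ : Subgroup G) := Subgroup.mem_top x
    rw [← h] at h1
    exact h1⟩

theorem unique_sub (hp : p.Prime) (hq : q.Prime) (hc : Nat.card G = p * q) {g : G} (hg : g ≠ 1)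
    {B : Subgroup G} (hgB : g ∈ B) (hB' : B ≠ ⊤) : B = Subgroup.zpowers g := by
  have hB : B ≠ ⊥ := fun h => hg (by rw [h] at hgB; exact Subgroup.mem_bot.1 hgB)
  have hle : Subgroup.zpowers g ≤ B := (Subgroup.zpowers_le).2 hgB
  have hpr : (Nat.card B).Prime := card_cases hp hq hc hB hB'
  have h1 : Nat.card (Subgroup.zpowers g) ∣ Nat.card B := Subgroup.card_dvd_of_le hle
  rcases (Nat.dvd_prime hpr).1 h1 with h | h
  · exact absurd ((Subgroup.card_eq_one).1 h) (zpowers_ne_bot hg)
  · exact (Subgroup.eq_of_le_of_card_ge hle h.ge).symm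

/-- the proper nontrivial subgroups -/
noncomputable def mid (G : Type) [Group G] [Fintype G] : Finset (Subgroup G) :=
  Finset.univ.filter fun B => B ≠ ⊥ ∧ B ≠ ⊤

theorem count_mid (hp : p.Prime) (hq : q.Prime) (hc : Nat.card G = p * q) (hn : ¬ IsCyclic G)
    {g : G} (hg : g ≠ 1) : ((mid G).filter fun B => g ∈ B) = {Subgroup.zpowers g} := by
  ext B
  rw [Finset.mem_filter, mid, Finset.mem_filter, Finset.mem_singleton]
  constructor
  · rintro ⟨⟨-, -, h2⟩, h3⟩
    exact unique_sub hp hq hc hg h3 h2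
  · rintro rfl
    exact ⟨⟨Finset.mem_univ _, zpowers_ne_bot hg, zpowers_ne_top hn g⟩, Subgroup.mem_zpowers g⟩

theorem two_mid (hn : ¬ IsCyclic G) : 1 < (mid G).card := by
  have hnt : Nontrivial G := by
    by_contra h
    rw [not_nontrivial_iff_subsingleton] at h
    exact hn inferInstance
  obtain ⟨g, hg⟩ := exists_ne (1 : G)
  have h1 : ∃ h, h ∉ Subgroup.zpowers g := by
    by_contra h
    push Not at h
    exact zpowers_ne_top hn g (eq_top_iff.2 fun x _ => h x)
  obtain ⟨h, hh⟩ := h1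
  have hh1 : h ≠ 1 := fun h' => hh (h' ▸ Subgroup.one_mem _)
  rw [Finset.one_lt_card]
  refine ⟨Subgroup.zpowers g, ?_, Subgroup.zpowers h, ?_, fun h' => hh ?_⟩
  · exact Finset.mem_filter.2 ⟨Finset.mem_univ _, zpowers_ne_bot hg, zpowers_ne_top hn g⟩
  · exact Finset.mem_filter.2 ⟨Finset.mem_univ _, zpowers_ne_bot hh1, zpowers_ne_top hn h⟩
  · rw [h']; exact Subgroup.mem_zpowers h

/-- **The norm relation.** If the sums over all nontrivial subgroups are in `S`, so is `u 1`. -/
theorem norm_rel {M : Type} [AddCommGroup M] [Module ℚ M] (hp : p.Prime) (hq : q.Prime)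
    (hc : Nat.card G = p * q) (hn : ¬ IsCyclic G) (u : G → M) {S : Submodule ℚ M}
    (hS : ∀ B : Subgroup G, B ≠ ⊥ → ∑ g, (if g ∈ B then u g else 0) ∈ S) : u 1 ∈ S := by
  have h1 : ∑ B ∈ mid G, ∑ g, (if g ∈ B then u g else 0) =
      (((mid G).card : ℚ) - 1) • u 1 + ∑ g, (if g ∈ (⊤ : Subgroup G) then u g else 0) := by
    rw [Finset.sum_comm]
    have h2 : ∀ g : G, ∑ B ∈ mid G, (if g ∈ B then u g else 0) =
        (if g = 1 then (((mid G).card : ℚ) - 1) • u 1 else 0) + u g := by
      intro g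
      rw [← Finset.sum_filter, Finset.sum_const]
      by_cases hg : g = 1
      · subst hg
        rw [if_pos rfl, Finset.filter_true_of_mem fun B _ => B.one_mem, sub_smul, one_smul,
          sub_add_cancel, Nat.cast_smul_eq_nsmul]
      · rw [if_neg hg, zero_add, count_mid hp hq hc hn hg, Finset.card_singleton, one_smul]
    rw [Finset.sum_congr rfl fun g _ => h2 g, Finset.sum_add_distrib]
    congr 1
    · rw [Finset.sum_ite_eq' Finset.univ 1]
      simp
    · exact Finset.sum_congr rfl fun g _ => by rw [if_pos (Subgroup.mem_top g)]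
  have hnt : (⊤ : Subgroup G) ≠ ⊥ := by
    intro h
    apply hn
    have : Subsingleton G := by
      rw [← Subgroup.subsingleton_iff]
      exact subsingleton_of_bot_eq_top h.symm
    infer_instance
  have h3 : (((mid G).card : ℚ) - 1) • u 1 ∈ S := by
    have h4 : (((mid G).card : ℚ) - 1) • u 1 = ∑ B ∈ mid G, ∑ g, (if g ∈ B then u g else 0) -
        ∑ g, (if g ∈ (⊤ : Subgroup G) then u g else 0) := by
      rw [h1, add_sub_cancel_right]
    rw [h4]
    exact S.sub_mem (S.sum_mem fun B hB => hS B (Finset.mem_filter.1 hB).2.1) (hS ⊤ hnt)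
  have h5 : (((mid G).card : ℚ) - 1) ≠ 0 := by
    have h6 := two_mid hn
    have : (1 : ℚ) < (mid G).card := by exact_mod_cast h6
    linarith
  exact (S.smul_mem_iff h5).1 h3

end

end Pool.Agent.H249.ZG
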