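import Pool.Agent.H249.ZG.Core
import Pool.Agent.H249.ZG.Grp
import Pool.Agent.Q274.HI.Group

/-! Ascent from subfields. -/

set_option autoImplicit false
set_option linter.unusedSectionVars false

open NumberField Module
open scoped Classical

namespace Pool.Agent.H249.ZG

section
variable {n : ℕ} {F : Type} [Field F] [NumberField F]
variable {K : Spaces}

/-- **Ascent.** -/
theorem ascent (hK : Facts n K) (A : Subgroup (Aut F)) (hA : NoncyclicPQ A)
    (hZ : ∀ B ≤ A, (Nat.card B).Prime → Zagier n (Fix B)) :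
    Zagier n F := by
  obtain ⟨hn, p, q, hp, hq, hc⟩ := hA
  rw [zagier_iff hK]
  intro f hf
  let u : A → (F →+* ℂ) → ℝ := fun a σ => f (co σ a)
  have hu : ∀ a, u a ∈ K.sp F := fun a => hK.natural F F ((a : F ≃ₐ[ℚ] F) : F →+* F) f hf
  have h1 : u 1 ∈ W n F := by
    refine norm_rel hp hq hc hn u fun H hH => ?_
    have hle : H.map A.subtype ≤ A := by
      rintro _ ⟨x, -, rfl⟩
      exact x.2
    have hne : H.map A.subtype ≠ ⊥ := fun h' => hH (by
      rwa [Subgroup.map_eq_bot_iff_of_injective _ A.subtype_injective] at h')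
    refine desc_prime hK hle hne hZ ?_ ?_
    · refine Submodule.sum_mem _ fun g _ => ?_
      split_ifs
      · exact hu g
      · exact Submodule.zero_mem _
    · rintro _ ⟨b, hb, rfl⟩ σ
      rw [Finset.sum_apply, Finset.sum_apply]
      have h2 : ∀ g : A, (if g ∈ H then u g else 0) (co σ b) =
          (if b * g ∈ H then u (b * g) else 0) σ := by
        intro g
        by_cases hg : g ∈ H
        · rw [if_pos hg, if_pos (H.mul_mem hb hg)]
          rfl
        · rw [if_neg hg, if_neg (fun h' => hg ((Subgroup.mul_mem_cancel_left H hb).1 h'))]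
          rfl
      refine (Finset.sum_congr rfl fun g _ => h2 g).trans ?_
      exact Fintype.sum_equiv (Equiv.mulLeft b) _ _ fun g => rfl
  exact h1

end

/-- induction on the degree -/
theorem reduce {Q P : ∀ (F : Type) [Field F] [NumberField F], Prop}
    (hQ : ∀ (F : Type) [Field F] [NumberField F], ¬ P F →
      (∀ A : Subgroup (Aut F), A ≠ ⊥ → Q (Fix A)) → Q F)
    (D : ℕ) : ∀ (F : Type) [Field F] [NumberField F], finrank ℚ F < D →
      (∀ (F' : Type) [Field F'] [NumberField F'], (F' →+* F) → P F' → Q F') → Q F := by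
  induction D with
  | zero => intro F _ _ h; exact absurd h (Nat.not_lt_zero _)
  | succ D ih =>
    intro F _ _ hD h
    by_cases hF : P F
    · exact h F (RingHom.id F) hF
    · refine hQ F hF fun B hB => ?_
      refine ih (Fix B) ?_ fun F'' _ _ φ hc' => ?_
      · have h1 := finrank_mul_finrank ℚ (IntermediateField.fixedField B) F
        rw [IntermediateField.finrank_fixedField_eq_card] at h1
        have h2 : 1 < Nat.card B := by
          rw [Finite.one_lt_card_iff_nontrivial]
          exact (Subgroup.nontrivial_iff_ne_bot B).2 hB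
        have h3 : 0 < finrank ℚ (IntermediateField.fixedField B) := finrank_pos
        have h4 : finrank ℚ (IntermediateField.fixedField B) < finrank ℚ F := by nlinarith
        exact lt_of_lt_of_le h4 (Nat.lt_succ_iff.1 hD)
      · exact h F'' ((inc B).comp φ) hc'

section
variable {n : ℕ} {F : Type} [Field F] [NumberField F]
variable {K : Spaces}

/-- **The reduction.** -/
theorem from_subfields (hK : Facts n K)
    (h : ∀ (F' : Type) [Field F'] [NumberField F'], (F' →+* F) → CycPQ (Aut F') →
      Essential n F' → Zagier n F') : Zagier n F := by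
  refine reduce (Q := fun F _ _ => Zagier n F)
    (P := fun F _ _ => CycPQ (Aut F) ∧ Essential n F) ?_ _ F (Nat.lt_succ_self _)
    fun F' _ _ φ hP => h F' φ hP.1 hP.2
  intro F _ _ hP hA
  by_cases h1 : CycPQ (Aut F)
  · by_cases h2 : Odd n → ¬ IsCM F
    · by_cases h3 : Even n → ¬ IsTotallyReal F
      · exact absurd ⟨h1, h2, h3⟩ hP
      · push Not at h3
        exact zagier_real hK h3.1 h3.2
    · push Not at h2
      exact zagier_cm hK h2.1 h2.2 hA
  · unfold CycPQ at h1
    push Not at h1
    obtain ⟨A, hA'⟩ := h1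
    exact ascent hK A hA' fun B _ hB => hA B (ne_bot_of_prime hB)

/-- complex conjugation of an abelian field -/
theorem exists_conj [IsAbelianGalois ℚ F] :
    ∃ τ : Aut F, ∀ (σ : F →+* ℂ) (x : F), σ (τ x) = starRingEnd ℂ (σ x) := by
  have hcomm : ∀ a b : F ≃ₐ[ℚ] F, a * b = b * a :=
    (IsAbelianGalois.toIsMulCommutative (K := ℚ) (L := F)).is_comm.comm
  let σ₀ : F →+* ℂ := Classical.arbitrary _
  have hex : ∀ ψ : F →+* ℂ, ∃ ρ : F ≃ₐ[ℚ] F, ∀ x, σ₀ (ρ x) = ψ x := by
    intro ψ
    obtain ⟨ρ, hρ⟩ := ComplexEmbedding.exists_comp_symm_eq_of_comp_eq (k := ℚ) σ₀ ψ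
      (Subsingleton.elim _ _)
    exact ⟨ρ.symm, fun x => DFunLike.congr_fun hρ x⟩
  obtain ⟨τ, hτ⟩ := hex (ComplexEmbedding.conjugate σ₀)
  refine ⟨τ, fun σ x => ?_⟩
  obtain ⟨ρ, hρ⟩ := hex σ
  rw [← hρ, ← hρ]
  have h1 : ρ (τ x) = τ (ρ x) := by
    have := DFunLike.congr_fun (hcomm ρ τ) x
    exact this
  rw [h1, hτ]
  rfl

/-- the parity which matters: totally real for odd `n`, totally complex for even `n` -/
theorem parity_of_abelian [IsAbelianGalois ℚ F] (h : Essential n F) :
    (Odd n → IsTotallyReal F) ∧ (Even n → IsTotallyComplex F) := by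
  obtain ⟨τ, hτ⟩ := exists_conj (F := F)
  constructor
  · intro hn
    have h1 : τ = 1 := by
      by_contra h1
      exact h.1 hn ⟨τ, h1, hτ⟩
    refine ⟨fun v => ?_⟩
    rw [InfinitePlace.isReal_iff, ComplexEmbedding.isReal_iff]
    ext x
    have := hτ v.embedding x
    rw [h1] at this
    exact this.symm
  · intro hn
    refine ⟨fun v => ?_⟩
    rw [← InfinitePlace.not_isReal_iff_isComplex]
    intro hv
    rw [InfinitePlace.isReal_iff, ComplexEmbedding.isReal_iff] at hv
    have h1 : τ = 1 := by
      ext x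
      apply v.embedding.injective
      rw [hτ]
      exact DFunLike.congr_fun hv x
    refine h.2 hn ⟨fun w => ?_⟩
    rw [InfinitePlace.isReal_iff, ComplexEmbedding.isReal_iff]
    ext x
    have := hτ w.embedding x
    rw [h1] at this
    exact this.symm

theorem cyclic_of_abelian [IsAbelianGalois ℚ F] (h : CycPQ (Aut F)) :
    IsCyclic (Aut F) := by
  let _ : CommGroup (F ≃ₐ[ℚ] F) :=
    { (inferInstance : Group (F ≃ₐ[ℚ] F)) with
      mul_comm := fun a b => (IsAbelianGalois.toIsMulCommutative (K := ℚ) (L := F)).is_comm.comm a b }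
  refine Pool.Agent.Q274.HI.cyclic_of_pq (G := F ≃ₐ[ℚ] F) fun A p q hp hq hc => ?_
  by_contra hn
  exact h A ⟨hn, p, q, hp, hq, hc⟩

/-- **Abelian fields.** -/
theorem from_cyclic (hK : Facts n K) (hF : IsAbelianGalois ℚ F)
    (h : ∀ (F' : Type) [Field F'] [NumberField F'], (F' →+* F) → IsGalois ℚ F' →
      IsCyclic (Aut F') → (Odd n → IsTotallyReal F') → (Even n → IsTotallyComplex F') →
      Zagier n F') : Zagier n F := by
  refine from_subfields hK fun F' _ _ φ h1 h2 => ?_
  let _ : Algebra F' F := φ.toAlgebra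
  have hab : IsAbelianGalois ℚ F' := IsAbelianGalois.tower_bot ℚ F' F
  have h3 := parity_of_abelian (n := n) h2
  exact h F' φ inferInstance (cyclic_of_abelian h1) h3.1 h3.2

end

end Pool.Agent.H249.ZG
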