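import Pool.Agent.H249.ZG.Asc

/-! Character sums. -/

set_option autoImplicit false
set_option linter.unusedSectionVars false

open NumberField Module Polynomial
open scoped Classical

namespace Pool.Agent.H249.ZG

/-- conjugate characters -/
theorem galois_scalar {G : Type*} [Fintype G] (χ : G → ℂ) {m : ℕ} (hm : 0 < m)
    (hχ : ∀ a, χ a ^ m = 1) {k : ℕ} (hk : k.Coprime m) (c : G → ℚ)
    (h : ∑ a, χ a * (c a : ℂ) = 0) : ∑ a, χ a ^ k * (c a : ℂ) = 0 := by
  set ζ : ℂ := Complex.exp (2 * Real.pi * Complex.I / m) with hζ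
  have hprim : IsPrimitiveRoot ζ m := Complex.isPrimitiveRoot_exp m hm.ne'
  have hprimk : IsPrimitiveRoot (ζ ^ k) m := hprim.pow_of_coprime k hk
  have : NeZero m := ⟨hm.ne'⟩
  have h2 : ∀ a, ∃ i : ℕ, i < m ∧ ζ ^ i = χ a := fun a => hprim.eq_pow_of_pow_eq_one (hχ a)
  choose l hl hl' using h2
  let P : ℚ[X] := ∑ a : G, C (c a) * X ^ (l a)
  have hP : ∀ z : ℂ, aeval z P = ∑ a : G, (c a : ℂ) * z ^ (l a) := by
    intro z
    change aeval z (∑ a : G, C (c a) * X ^ (l a)) = _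
    rw [map_sum]
    refine Finset.sum_congr rfl fun a _ => ?_
    rw [map_mul, aeval_C, map_pow, aeval_X]
    rfl
  have h4 : aeval ζ P = 0 := by
    rw [hP, ← h]
    refine Finset.sum_congr rfl fun a _ => ?_
    rw [hl', mul_comm]
  have h6 : minpoly ℚ (ζ ^ k) ∣ P := by
    rw [← cyclotomic_eq_minpoly_rat hprimk hm, cyclotomic_eq_minpoly_rat hprim hm]
    exact minpoly.dvd ℚ _ h4
  have h7 : aeval (ζ ^ k) P = 0 := by
    obtain ⟨R, hR⟩ := h6
    rw [hR, map_mul, minpoly.aeval, zero_mul]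
  rw [hP] at h7
  rw [← h7]
  refine Finset.sum_congr rfl fun a _ => ?_
  rw [← hl', ← pow_mul, ← pow_mul, mul_comm (l a) k, mul_comm]

section
variable {n : ℕ} {F : Type} [Field F] [NumberField F] {A : Subgroup (Aut F)}
variable {K : Spaces}

/-- the complex valued function -/
def io (f : (F →+* ℂ) → ℝ) : (F →+* ℂ) → ℂ := fun σ => (f σ : ℂ)

/-- composition with an automorphism -/
def tr (a : Aut F) (f : (F →+* ℂ) → ℝ) : (F →+* ℂ) → ℝ := fun σ => f (co σ a)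

theorem tr_mem (hK : Facts n K) (a : Aut F) {f : (F →+* ℂ) → ℝ} (hf : f ∈ K.sp F) :
    tr a f ∈ K.sp F := hK.natural F F (a : F →+* F) f hf

theorem chiSum_eq (χ : Chr A) (f : (F →+* ℂ) → ℝ) :
    chiSum χ f = ∑ a : A, χ a • io (tr (a : Aut F) f) := by
  funext σ
  rw [Finset.sum_apply]
  rfl

theorem io_sum {ι : Type*} (s : Finset ι) (f : ι → (F →+* ℂ) → ℝ) :
    io (∑ i ∈ s, f i) = ∑ i ∈ s, io (f i) := by
  funext σ
  rw [Finset.sum_apply]
  unfold io
  rw [Finset.sum_apply]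
  push_cast
  rfl

theorem io_smul (c : ℚ) (f : (F →+* ℂ) → ℝ) : io (c • f) = (c : ℂ) • io f := by
  funext σ
  change ((c • f σ : ℝ) : ℂ) = (c : ℂ) * (f σ : ℂ)
  rw [Rat.smul_def]
  push_cast
  rfl

theorem chiSum_sum {ι : Type*} (χ : Chr A) (s : Finset ι) (f : ι → (F →+* ℂ) → ℝ) :
    chiSum χ (∑ i ∈ s, f i) = ∑ i ∈ s, chiSum χ (f i) := by
  funext σ
  rw [Finset.sum_apply]
  unfold chiSum
  rw [Finset.sum_comm]
  refine Finset.sum_congr rfl fun a _ => ?_
  rw [Finset.sum_apply, ← Finset.mul_sum]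
  push_cast
  rfl

theorem chiSum_zero (χ : Chr A) : chiSum χ 0 = 0 := by
  funext σ
  simp [chiSum]

theorem chiSum_zsmul (χ : Chr A) (m : ℤ) (f : (F →+* ℂ) → ℝ) :
    chiSum χ (m • f) = (m : ℂ) • chiSum χ f := by
  funext σ
  rw [Pi.smul_apply, smul_eq_mul]
  unfold chiSum
  rw [Finset.mul_sum]
  refine Finset.sum_congr rfl fun a _ => ?_
  rw [Pi.smul_apply, zsmul_eq_mul]
  push_cast
  ring

/-- change of the embedding -/
theorem chiSum_comp (χ : Chr A) (f : (F →+* ℂ) → ℝ) (σ : F →+* ℂ) (b : A) :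
    χ b * chiSum χ f (co σ b) = chiSum χ f σ := by
  unfold chiSum
  rw [Finset.mul_sum]
  refine Fintype.sum_equiv (Equiv.mulLeft b) _ _ fun a => ?_
  rw [← mul_assoc, ← map_mul]
  rfl

theorem chiSum_tr (χ : Chr A) (f : (F →+* ℂ) → ℝ) (σ : F →+* ℂ) (b : A)
    (hcomm : ∀ a b : A, a * b = b * a) :
    χ b * chiSum χ (tr (b : Aut F) f) σ = chiSum χ f σ := by
  unfold chiSum
  rw [Finset.mul_sum]
  refine Fintype.sum_equiv (Equiv.mulLeft b) _ _ fun a => ?_
  rw [← mul_assoc, ← map_mul]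
  change _ * ((f (co (co σ a) b) : ℝ) : ℂ) = χ (b * a) * ((f (co σ (b * a : A)) : ℝ) : ℂ)
  rw [hcomm b a]
  rfl

theorem chiSum_type (hK : Facts n K) (χ : Chr A) {f : (F →+* ℂ) → ℝ} (hf : f ∈ K.sp F) :
    IsType n χ (chiSum χ f) := by
  refine ⟨fun σ => ?_, fun a σ => chiSum_comp χ f σ a⟩
  unfold chiSum
  rw [Finset.mul_sum]
  refine Finset.sum_congr rfl fun a _ => ?_
  have h : co (ComplexEmbedding.conjugate σ) (a : Aut F) =
      ComplexEmbedding.conjugate (co σ (a : Aut F)) := rfl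
  rw [h, hK.conj F f hf]
  push_cast
  ring

/-- the coordinates -/
theorem exists_coord {b : Pl n F → (F →+* ℂ) → ℝ} (hb0 : detOf n F b ≠ 0) :
    ∃ Λ : Pl n F → (((F →+* ℂ) → ℂ) →ₗ[ℂ] ℂ), ∀ i k, Λ i (io (b k)) = if k = i then 1 else 0 := by
  set M : Matrix (Pl n F) (Pl n F) ℝ := Matrix.of fun i j => b i j.1.embedding with hM
  have hM0 : IsUnit M.det := Ne.isUnit hb0
  refine ⟨fun i => ∑ j : Pl n F, ((M⁻¹ j i : ℝ) : ℂ) • LinearMap.proj j.1.embedding,
    fun i k => ?_⟩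
  rw [LinearMap.sum_apply]
  have h1 : M * M⁻¹ = 1 := Matrix.mul_nonsing_inv M hM0
  have h2 : (∑ j, M k j * M⁻¹ j i : ℝ) = if k = i then 1 else 0 := by
    rw [← Matrix.mul_apply, h1, Matrix.one_apply]
  have h3 : ∑ j : Pl n F, (((M⁻¹ j i : ℝ) : ℂ) • (LinearMap.proj (R := ℂ) (φ := fun _ => ℂ)
      j.1.embedding : ((F →+* ℂ) → ℂ) →ₗ[ℂ] ℂ)) (io (b k)) =
      ((∑ j, M k j * M⁻¹ j i : ℝ) : ℂ) := by
    push_cast
    refine Finset.sum_congr rfl fun j _ => ?_
    change ((M⁻¹ j i : ℝ) : ℂ) * ((b k j.1.embedding : ℝ) : ℂ) = _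
    rw [mul_comm]
    rfl
  rw [h3, h2]
  split_ifs <;> simp

/-- rational functionals extend -/
theorem exists_ext {b : Pl n F → (F →+* ℂ) → ℝ} (hb0 : detOf n F b ≠ 0)
    (l : ((F →+* ℂ) → ℝ) →ₗ[ℚ] ℚ) : ∃ Γ : ((F →+* ℂ) → ℂ) →ₗ[ℂ] ℂ,
      ∀ y ∈ Submodule.span ℚ (Set.range b), Γ (io y) = (l y : ℂ) := by
  obtain ⟨Λ, hΛ⟩ := exists_coord hb0
  refine ⟨∑ j, (l (b j) : ℂ) • Λ j, fun y hy => ?_⟩
  obtain ⟨c, rfl⟩ := (Submodule.mem_span_range_iff_exists_fun ℚ).1 hy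
  rw [io_sum, map_sum, map_sum, Rat.cast_sum]
  refine Finset.sum_congr rfl fun k _ => ?_
  rw [io_smul, map_smul, map_smul, LinearMap.sum_apply]
  simp_rw [LinearMap.smul_apply, hΛ]
  simp

/-- functions with the symmetry of the regulators are combinations of regulators -/
theorem parity_span (hK : Facts n K) {b : Pl n F → (F →+* ℂ) → ℝ}
    (hb : Submodule.span ℚ (Set.range b) = K.sp F) (hn : 2 ≤ n)
    (hb0 : detOf n F b ≠ 0) {v : (F →+* ℂ) → ℂ}
    (hv : ∀ σ, v (ComplexEmbedding.conjugate σ) = (-1) ^ (n - 1) * v σ) :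
    ∃ u : Pl n F → ℂ, v = ∑ i, u i • io (b i) := by
  set M : Matrix (Pl n F) (Pl n F) ℂ := Matrix.of fun i j => ((b i j.1.embedding : ℝ) : ℂ) with hM
  have hM0 : IsUnit M.det := by
    have h1 : M = (Matrix.of fun i j : Pl n F => b i j.1.embedding).map Complex.ofRealHom := rfl
    have h2 : M.det = ((detOf n F b : ℝ) : ℂ) := by
      rw [h1]
      exact (Complex.ofRealHom.map_det _).symm
    rw [h2]
    exact Ne.isUnit (by exact_mod_cast hb0)
  refine ⟨Matrix.vecMul (fun j : Pl n F => v j.1.embedding) M⁻¹, ?_⟩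
  set u := Matrix.vecMul (fun j : Pl n F => v j.1.embedding) M⁻¹ with hu
  have h1 : Matrix.vecMul u M = fun j : Pl n F => v j.1.embedding := by
    rw [hu, Matrix.vecMul_vecMul, Matrix.nonsing_inv_mul M hM0, Matrix.vecMul_one]
  have h2 : ∀ j : Pl n F, (∑ i, u i • io (b i)) j.1.embedding = v j.1.embedding := by
    intro j
    have h3 := congrFun h1 j
    rw [← h3, Finset.sum_apply]
    rfl
  have h4 : ∀ σ, (∑ i, u i • io (b i)) (ComplexEmbedding.conjugate σ) =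
      (-1) ^ (n - 1) * (∑ i, u i • io (b i)) σ := by
    intro σ
    rw [Finset.sum_apply, Finset.sum_apply, Finset.mul_sum]
    refine Finset.sum_congr rfl fun i _ => ?_
    change u i * ((b i (ComplexEmbedding.conjugate σ) : ℝ) : ℂ) =
      (-1) ^ (n - 1) * (u i * ((b i σ : ℝ) : ℂ))
    rw [hK.conj F (b i) (by rw [← hb]; exact Submodule.subset_span ⟨i, rfl⟩)]
    push_cast
    ring
  funext σ
  by_cases hw : Odd n ∨ (InfinitePlace.mk σ).IsComplex
  · have h5 := h2 ⟨InfinitePlace.mk σ, hw⟩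
    rcases InfinitePlace.embedding_mk_eq σ with h6 | h6
    · rw [h6] at h5
      exact h5.symm
    · simp only [h6] at h5
      rw [h4, hv] at h5
      exact (mul_left_cancel₀ (pow_ne_zero _ (by norm_num : (-1 : ℂ) ≠ 0)) h5).symm
  · push Not at hw
    have h5 : ComplexEmbedding.conjugate σ = σ := by
      have h6 := hw.2
      rw [InfinitePlace.not_isComplex_iff_isReal, InfinitePlace.isReal_mk_iff,
        ComplexEmbedding.isReal_iff] at h6
      exact h6
    have h6 : Odd (n - 1) := by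
      obtain ⟨k, hk⟩ := Nat.not_odd_iff_even.1 hw.1
      exact ⟨k - 1, by omega⟩
    have h7 : ∀ w : (F →+* ℂ) → ℂ,
        (∀ σ, w (ComplexEmbedding.conjugate σ) = (-1) ^ (n - 1) * w σ) → w σ = 0 := by
      intro w hw
      have h8 := hw σ
      rw [h5, h6.neg_one_pow] at h8
      linear_combination h8 / 2
    rw [h7 v hv, h7 _ h4]

end

end Pool.Agent.H249.ZG
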