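import Pool.Agent.H249.ZG.Map

/-! The conjecture in terms of the rational spaces generated by the regulators. -/

set_option autoImplicit false
set_option linter.unusedSectionVars false

open NumberField OnePoint Polynomial
open scoped Classical

namespace Pool.Agent.H249.ZG

/-- the rational multiples of the values of `ℒ_n` on `ker δ_n` -/
noncomputable def W (n : ℕ) (F : Type) [Field F] : Submodule ℚ ((F →+* ℂ) → ℝ) where
  carrier := {f | ∃ α ∈ ker n F, ∃ m : ℤ, m ≠ 0 ∧ m • f = pol n α}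
  zero_mem' := ⟨0, AddSubgroup.zero_mem _, 1, one_ne_zero, by rw [pol_zero, smul_zero]⟩
  add_mem' := by
    rintro f g ⟨α, hα, m, hm, hf⟩ ⟨β, hβ, k, hk, hg⟩
    refine ⟨k • α + m • β, AddSubgroup.add_mem _ (AddSubgroup.zsmul_mem _ hα _)
      (AddSubgroup.zsmul_mem _ hβ _), m * k, mul_ne_zero hm hk, ?_⟩
    rw [pol_add, pol_zsmul, pol_zsmul, ← hf, ← hg, smul_add, smul_smul, smul_smul, mul_comm k m]
  smul_mem' := by
    rintro c f ⟨α, hα, m, hm, hf⟩
    refine ⟨c.num • α, AddSubgroup.zsmul_mem _ hα _, m * c.den,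
      mul_ne_zero hm (by exact_mod_cast c.den_ne_zero), ?_⟩
    rw [pol_zsmul, ← hf]
    funext σ
    change (m * c.den : ℤ) • (c • f σ) = c.num • (m • f σ)
    simp only [zsmul_eq_mul, Rat.smul_def]
    have h : ((c : ℝ)) * (c.den : ℝ) = (c.num : ℝ) := by
      exact_mod_cast c.mul_den_eq_num
    push_cast
    rw [← h]
    ring

theorem mem_W_of_pol {n : ℕ} {F : Type} [Field F] {α : Sym F} (h : α ∈ ker n F) :
    pol n α ∈ W n F := ⟨α, h, 1, one_ne_zero, one_smul _ _⟩

section
variable {n : ℕ} {F : Type} [Field F] [NumberField F]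

theorem Value.scale {D : ℝ} (h : Value n F D) {r : ℚ} (hr : r ≠ 0) : Value n F (r * D) := by
  obtain ⟨q, hq, he⟩ := h
  refine ⟨q / r, div_ne_zero hq hr, ?_⟩
  rw [he]
  congr 1
  have : (r : ℝ) ≠ 0 := by exact_mod_cast hr
  push_cast
  field_simp

theorem fac_ne : (Real.pi ^ (n * Fintype.card (Pl (n - 1) F)) * (√|(discr F : ℝ)|)⁻¹ : ℝ) ≠ 0 := by
  have h1 : (discr F : ℝ) ≠ 0 := by exact_mod_cast discr_ne_zero F
  have h2 : (0 : ℝ) < |(discr F : ℝ)| := abs_pos.2 h1
  have h3 := Real.sqrt_pos.2 h2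
  have := Real.pi_pos
  positivity

theorem Value.ne {D D' : ℝ} (h : Value n F D) (hD : D ≠ 0) (h' : Value n F D') : D' ≠ 0 := by
  obtain ⟨q, hq, he⟩ := h
  obtain ⟨q', hq', he'⟩ := h'
  rintro rfl
  rw [he, mul_zero, mul_zero, Complex.ofReal_zero, Complex.ofReal_eq_zero] at he'
  have h1 : (q : ℝ) ≠ 0 := by exact_mod_cast hq
  exact mul_ne_zero h1 (mul_ne_zero fac_ne hD) he'

variable {K : Spaces}

/-- elements of the rational space: the determinant is a rational multiple -/
theorem det_coef {b y : Pl n F → (F →+* ℂ) → ℝ}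
    (hy : ∀ i, y i ∈ Submodule.span ℚ (Set.range b)) :
    ∃ c : Matrix (Pl n F) (Pl n F) ℚ, (∀ i, y i = ∑ j, c i j • b j) ∧
      detOf n F y = (c.det : ℝ) * detOf n F b := by
  have h1 : ∀ i, ∃ c : Pl n F → ℚ, ∑ j, c j • b j = y i := fun i =>
    (Submodule.mem_span_range_iff_exists_fun ℚ).1 (hy i)
  choose c hc using h1
  refine ⟨Matrix.of c, fun i => (hc i).symm, ?_⟩
  have h2 : (Matrix.of fun i j : Pl n F => y i j.1.embedding) =
      ((Matrix.of c).map (Rat.castHom ℝ)) * (Matrix.of fun i j : Pl n F => b i j.1.embedding) := by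
    ext i j
    rw [Matrix.mul_apply, Matrix.of_apply, ← hc i, Finset.sum_apply]
    refine Finset.sum_congr rfl fun k _ => ?_
    rw [Pi.smul_apply, Rat.smul_def]
    rfl
  unfold detOf
  rw [h2, Matrix.det_mul]
  congr 1
  exact ((Rat.castHom ℝ).map_det (Matrix.of c)).symm

/-- **The formula holds if and only if `l_n` is surjective.** -/
theorem zagier_iff (hK : Facts n K) : Zagier n F ↔ K.sp F ≤ W n F := by
  obtain ⟨b, hb, hb0, hbV⟩ := hK.borel F
  constructor
  · rintro ⟨y, hy, hV⟩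
    have hne : detOf n F (fun i => pol n (y i)) ≠ 0 := hbV.ne hb0 hV
    obtain ⟨c, hc, hd⟩ := det_coef (b := b) (y := fun i => pol n (y i)) fun i => by
      rw [hb]; exact hK.polylog F _ (hy i)
    have hc0 : c.det ≠ 0 := by
      intro h
      rw [h, Rat.cast_zero, zero_mul] at hd
      exact hne hd
    rw [← hb, Submodule.span_le]
    rintro _ ⟨j, rfl⟩
    have h1 : c⁻¹ * c = 1 := Matrix.nonsing_inv_mul c (Ne.isUnit hc0)
    have h2 : b j = ∑ i, c⁻¹ j i • pol n (y i) := by
      have h3 : ∀ i, pol n (y i) = ∑ k, c i k • b k := hc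
      simp_rw [h3, Finset.smul_sum, smul_smul]
      rw [Finset.sum_comm]
      simp_rw [← Finset.sum_smul]
      have h4 : ∀ k, ∑ i, c⁻¹ j i * c i k = if j = k then 1 else 0 := by
        intro k
        rw [← Matrix.mul_apply, h1, Matrix.one_apply]
      simp_rw [h4]
      simp
    rw [h2]
    exact Submodule.sum_mem _ fun i _ => Submodule.smul_mem _ _ (mem_W_of_pol (hy i))
  · intro h
    have h1 : ∀ j, b j ∈ W n F := fun j => h (by rw [← hb]; exact Submodule.subset_span ⟨j, rfl⟩)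
    choose α hα m hm he using h1
    refine ⟨α, hα, ?_⟩
    have h2 : detOf n F (fun i => pol n (α i)) = ((∏ i, (m i : ℚ) : ℚ) : ℝ) * detOf n F b := by
      unfold detOf
      have h3 : (Matrix.of fun i j : Pl n F => pol n (α i) j.1.embedding) =
          Matrix.of fun i j : Pl n F => (fun i => (m i : ℝ)) i *
            (Matrix.of fun i j : Pl n F => b i j.1.embedding) i j := by
        ext i j
        rw [Matrix.of_apply, Matrix.of_apply, ← he i, Pi.smul_apply, zsmul_eq_mul]
        rfl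
      rw [h3, Matrix.det_mul_column]
      push_cast
      rfl
    rw [h2]
    exact hbV.scale (Finset.prod_ne_zero_iff.2 fun i _ => by exact_mod_cast hm i)

/-- **Nonvanishing suffices.** -/
theorem zagier_iff_det (hK : Facts n K) : Zagier n F ↔
    ∃ y : Pl n F → Sym F, (∀ i, y i ∈ ker n F) ∧ detOf n F (fun i => pol n (y i)) ≠ 0 := by
  obtain ⟨b, hb, hb0, hbV⟩ := hK.borel F
  constructor
  · rintro ⟨y, hy, hV⟩
    exact ⟨y, hy, hbV.ne hb0 hV⟩
  · rintro ⟨y, hy, hne⟩
    obtain ⟨c, -, hd⟩ := det_coef (b := b) (y := fun i => pol n (y i)) fun i => by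
      rw [hb]; exact hK.polylog F _ (hy i)
    refine ⟨y, hy, ?_⟩
    rw [hd]
    refine hbV.scale fun h => hne ?_
    rw [hd, h, Rat.cast_zero, zero_mul]

/-- elements fixed by a group of automorphisms -/
theorem desc (hK : Facts n K) {A : Subgroup (Aut F)}
    (hZ : Zagier n (Fix A)) {f : (F →+* ℂ) → ℝ} (hf : f ∈ K.sp F)
    (hinv : ∀ a ∈ A, ∀ σ : F →+* ℂ, f (co σ a) = f σ) : f ∈ W n F := by
  obtain ⟨g, hg, hfg⟩ := hK.descent F A f hf hinv
  obtain ⟨α, hα, m, hm, he⟩ := (zagier_iff hK).1 hZ hg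
  refine ⟨mp (inc A) α, ker_mp n _ hα, m, hm, ?_⟩
  funext σ
  rw [pol_mp, ← he, Pi.smul_apply, Pi.smul_apply, hfg]

/-- a nontrivial finite group has a subgroup of prime order -/
theorem exists_prime_sub {G : Type*} [Group G] [Finite G] {B : Subgroup G} (hB : B ≠ ⊥) :
    ∃ B' ≤ B, (Nat.card B').Prime := by
  have h1 : Nat.card B ≠ 1 := fun h => hB (Subgroup.card_eq_one.1 h)
  have hp := Nat.minFac_prime h1
  have : Fact (Nat.card B).minFac.Prime := ⟨hp⟩
  obtain ⟨x, hx⟩ := exists_prime_orderOf_dvd_card' (G := B) (Nat.card B).minFac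
    (Nat.minFac_dvd _)
  refine ⟨Subgroup.zpowers (x : G), (Subgroup.zpowers_le).2 x.2, ?_⟩
  rw [Nat.card_zpowers, Subgroup.orderOf_coe, hx]
  exact hp

theorem ne_bot_of_prime {G : Type*} [Group G] {B : Subgroup G} (hB : (Nat.card B).Prime) :
    B ≠ ⊥ := by
  rintro rfl
  rw [Subgroup.card_bot] at hB
  exact Nat.not_prime_one hB

/-- the conjecture for the fields fixed by the subgroups of prime order suffices -/
theorem desc_prime (hK : Facts n K) {A B : Subgroup (Aut F)} (hBA : B ≤ A) (hB : B ≠ ⊥)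
    (hZ : ∀ B' ≤ A, (Nat.card B').Prime → Zagier n (Fix B'))
    {f : (F →+* ℂ) → ℝ} (hf : f ∈ K.sp F)
    (hinv : ∀ a ∈ B, ∀ σ : F →+* ℂ, f (co σ a) = f σ) : f ∈ W n F := by
  obtain ⟨B', hB', hp⟩ := exists_prime_sub hB
  exact desc hK (hZ B' (hB'.trans hBA) hp) hf fun a ha => hinv a (hB' ha)

/-- the automorphisms which fix a function -/
def stab (f : (F →+* ℂ) → ℝ) : Subgroup (Aut F) where
  carrier := {a | ∀ σ : F →+* ℂ, f (co σ a) = f σ}
  one_mem' := fun σ => rfl
  mul_mem' := by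
    intro a b ha hb σ
    have h : co σ (a * b) = co (co σ a) b := rfl
    rw [h, hb, ha]
  inv_mem' := by
    intro a ha σ
    have h : co (co σ a⁻¹) a = σ := by
      ext x
      change σ (a.symm (a x)) = σ x
      rw [AlgEquiv.symm_apply_apply]
    have h2 := ha (co σ a⁻¹)
    rw [h] at h2
    exact h2.symm

/-- totally real fields, even `n` -/
theorem zagier_real (hK : Facts n K) (hn : Even n) (h : IsTotallyReal F) : Zagier n F := by
  rw [zagier_iff hK]
  obtain ⟨b, hb, -, -⟩ := hK.borel F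
  rw [← hb, Submodule.span_le]
  rintro _ ⟨j, rfl⟩
  rcases j.2 with h1 | h1
  · exact absurd h1 (Nat.not_odd_iff_even.2 hn)
  · exact absurd (h.isReal j.1) (InfinitePlace.not_isReal_iff_isComplex.2 h1)

/-- CM fields, odd `n` -/
theorem zagier_cm (hK : Facts n K) (hn : Odd n) (h : IsCM F)
    (hZ : ∀ A : Subgroup (Aut F), A ≠ ⊥ → Zagier n (Fix A)) :
    Zagier n F := by
  obtain ⟨τ, hτ, hτ'⟩ := h
  rw [zagier_iff hK]
  intro f hf
  have hA : Subgroup.zpowers τ ≠ ⊥ := fun h => hτ (Subgroup.zpowers_eq_bot.1 h)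
  refine desc hK (hZ _ hA) hf ?_
  have h1 : Subgroup.zpowers τ ≤ stab f := by
    rw [Subgroup.zpowers_le]
    intro σ
    have h2 : co σ τ = ComplexEmbedding.conjugate σ := by
      ext x
      exact hτ' σ x
    rw [h2, hK.conj F f hf]
    have h3 : Even (n - 1) := by
      obtain ⟨k, hk⟩ := hn
      exact ⟨k, by omega⟩
    rw [h3.neg_one_pow, one_mul]
  exact fun a ha => h1 ha

end

end Pool.Agent.H249.ZG
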