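import Mathlib

/-!
# Zagier's conjecture on `ζ_F(n)`

The groups `ℤ[P¹_F]`, `ker δ_n`, `R_n(F)`, the single-valued polylogarithm, the formula, the known
theorems of Borel, Beilinson, Deligne and de Jeu, and character sums over groups of automorphisms.
-/

set_option autoImplicit false

open NumberField OnePoint Polynomial
open scoped TensorProduct Classical

namespace Pool.Agent.H249.ZG

section
variable {A B : Type} [AddCommGroup A] [AddCommGroup B]

/-- `A ⊗ B` -/
abbrev Tens (A B : Type) [AddCommGroup A] [AddCommGroup B] : Type := A ⊗[ℤ] B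

noncomputable instance (priority := 2000) tensGroup (A B : Type) [AddCommGroup A]
    [AddCommGroup B] : AddCommGroup (Tens A B) := inferInstanceAs (AddCommGroup (A ⊗[ℤ] B))

/-- `a ⊗ b` -/
noncomputable def tm (a : A) (b : B) : Tens A B := a ⊗ₜ[ℤ] b

/-- the subgroup of `A ⊗ A` generated by all `a ⊗ a` -/
noncomputable def alt (A : Type) [AddCommGroup A] : AddSubgroup (Tens A A) :=
  AddSubgroup.closure {t | ∃ a, t = tm a a}

/-- `Λ²A` -/
abbrev Wedge (A : Type) [AddCommGroup A] : Type := Tens A A ⧸ alt A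

noncomputable instance (priority := 2000) wedgeGroup (A : Type) [AddCommGroup A] :
    AddCommGroup (Wedge A) := inferInstanceAs (AddCommGroup (Tens A A ⧸ alt A))

/-- `a ∧ b` -/
noncomputable def wd (a b : A) : Wedge A := QuotientAddGroup.mk (tm a b)

end

/-- `ℤ[P¹_F]` -/
abbrev Sym (F : Type) := FreeAbelianGroup (OnePoint F)

/-- `{x}` for `x` in `F` -/
def sy {F : Type} (x : F) : Sym F := .of (x : OnePoint F)

/-- `F^*`, written additively -/
abbrev Mult (F : Type) [Field F] : Type := Additive Fˣ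

instance (priority := 2000) multGroup (F : Type) [Field F] : AddCommGroup (Mult F) :=
  inferInstanceAs (AddCommGroup (Additive Fˣ))

section
variable {F F' : Type} [Field F] [Field F']

/-- a nonzero `x` as an element of `F^*` -/
noncomputable def un (x : F) : Mult F :=
  Additive.ofMul (if h : x = 0 then 1 else Units.mk0 x h)

/-- the homomorphism on `ℤ[P¹_F]` with `{x} ↦ g(x)` and `{0}, {1}, {∞} ↦ 0` -/
noncomputable def onSym {M : Type} [AddCommGroup M] (g : F → M) : Sym F →+ M :=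
  FreeAbelianGroup.lift fun z => z.elim 0 fun x => if x = 0 ∨ x = 1 then 0 else g x

/-- `δ_2 : ℤ[P¹_F] → Λ²F^*`, `{x} ↦ (1 - x) ∧ x` -/
noncomputable def delta2 : Sym F →+ Wedge (Mult F) := onSym fun x => wd (un (1 - x)) (un x)

/-- `δ_n : ℤ[P¹_F] → B_{n-1}(F) ⊗ F^*` for `n ≥ 3`, where `S = R_{n-1}(F)`: `{x} ↦ {x}_{n-1} ⊗ x` -/
noncomputable def delta (S : AddSubgroup (Sym F)) : Sym F →+ Tens (Sym F ⧸ S) (Mult F) :=
  onSym fun x => tm (QuotientAddGroup.mk (sy x)) (un x)

/-- the value `f(c)` in `P¹(F)` of a rational function -/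
noncomputable def value (c : F) (f : RatFunc F) : OnePoint F :=
  if f.denom.eval c = 0 then ∞ else ((f.num.eval c / f.denom.eval c : F) : OnePoint F)

/-- `α(c) = ∑ n_i {f_i(c)}` for `α = ∑ n_i {f_i}` -/
noncomputable def spec (c : F) : Sym (RatFunc F) →+ Sym F :=
  FreeAbelianGroup.map fun z => z.elim ∞ (value c)

/-- `R_n(F)`, from `Z = ker δ_n` over `F(t)`: generated by `{0}`, `{∞}` and all `α(0) - α(1)` -/
def rel (Z : AddSubgroup (Sym (RatFunc F))) : AddSubgroup (Sym F) :=
  AddSubgroup.closure ({sy 0, .of ∞} ∪ {a | ∃ α ∈ Z, a = spec 0 α - spec 1 α})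

/-- the homomorphism `ℤ[P¹_F] → ℤ[P¹_{F'}]` induced by `φ : F → F'` -/
noncomputable def mp (φ : F →+* F') : Sym F →+ Sym F' := FreeAbelianGroup.map (OnePoint.map φ)

end

/-- a subgroup of `ℤ[P¹_F]` for every field `F` -/
structure Kers where
  /-- the subgroup -/
  sub : ∀ (F : Type) [Field F], AddSubgroup (Sym F)

/-- `ker δ_2` -/
noncomputable def ker2 : Kers := ⟨fun _ _ => delta2.ker⟩

/-- `ker δ_{n+1}`, from `Z = ker δ_n`: the kernel of `ℤ[P¹_F] → B_n(F) ⊗ F^*`, where
`B_n(F) = ℤ[P¹_F] / R_n(F)` and `R_n(F)` comes from `ker δ_n` over `F(t)` -/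
noncomputable def step (Z : Kers) : Kers := ⟨fun F _ => (delta (rel (Z.sub (RatFunc F)))).ker⟩

/-- `ker δ_n` in `ℤ[P¹_F]`, for `n ≥ 2` -/
noncomputable def ker (n : ℕ) (F : Type) [Field F] : AddSubgroup (Sym F) :=
  (step^[n - 2] ker2).sub F

/-- the polylogarithm `Li_m` for `|z| ≤ 1` -/
noncomputable def Li (m : ℕ) (z : ℂ) : ℂ := ∑' k : ℕ, z ^ (k + 1) / ((k + 1 : ℕ) : ℂ) ^ m

/-- `β_k`: `2x / (e^{2x} - 1) = ∑ β_k x^k` -/
noncomputable def beta (k : ℕ) : ℝ := 2 ^ k * ((bernoulli k : ℚ) : ℝ) / (k.factorial : ℝ)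

/-- `∑_{k<n} β_k log^k|z| Li_{n-k}(z)` for `|z| ≤ 1` -/
noncomputable def inner (n : ℕ) (z : ℂ) : ℂ :=
  ∑ k ∈ Finset.range n, ((beta k * Real.log ‖z‖ ^ k : ℝ) : ℂ) * Li (n - k) z

/-- `ℒ_n(z)` for `|z| ≤ 1` -/
noncomputable def disc (n : ℕ) (z : ℂ) : ℝ := if Odd n then (inner n z).re else (inner n z).im

/-- `ℒ_n` on `P¹(ℂ)`: `ℒ_n(z) = (-1)^{n-1} ℒ_n(1/z)` for `|z| > 1`, `ℒ_n(∞) = 0` -/
noncomputable def L (n : ℕ) (z : OnePoint ℂ) : ℝ :=
  z.elim 0 fun z => if ‖z‖ ≤ 1 then disc n z else (-1) ^ (n - 1) * disc n z⁻¹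

/-- the values `ℒ̃_n(σ(α))` for all embeddings `σ` -/
noncomputable def pol (n : ℕ) {F : Type} [Field F] (α : Sym F) (σ : F →+* ℂ) : ℝ :=
  FreeAbelianGroup.lift (L n) (mp σ α)

section
variable (n : ℕ) (F : Type) [Field F] [NumberField F]

/-- the `d_n` places: all infinite places for odd `n`, the complex ones for even `n` -/
abbrev Pl := {v : InfinitePlace F // Odd n ∨ v.IsComplex}

/-- `det |y_i(σ_j)|`, `σ_j` one embedding for each of the `d_n` places -/
noncomputable def detOf (y : Pl n F → (F →+* ℂ) → ℝ) : ℝ :=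
  Matrix.det (Matrix.of fun i j : Pl n F => y i j.1.embedding)

/-- `ζ_F(n) = q π^{n d_{n-1}} d_F^{-1/2} D` for some nonzero rational `q` -/
def Value (D : ℝ) : Prop :=
  ∃ q : ℚ, q ≠ 0 ∧ dedekindZeta F n =
    ((q * (Real.pi ^ (n * Fintype.card (Pl (n - 1) F)) * (√|(discr F : ℝ)|)⁻¹ * D) : ℝ) : ℂ)

/-- **Zagier's conjecture for `ζ_F(n)`** -/
def Zagier : Prop :=
  ∃ y : Pl n F → Sym F, (∀ i, y i ∈ ker n F) ∧ Value n F (detOf n F fun i => pol n (y i))

/-- the automorphisms of `F` -/
abbrev Aut : Type := F ≃ₐ[ℚ] F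

instance (priority := 2000) autGroup : Group (Aut F) := inferInstanceAs (Group (F ≃ₐ[ℚ] F))

instance (priority := 2000) autFinite : Finite (Aut F) := inferInstanceAs (Finite (F ≃ₐ[ℚ] F))

end

section
variable {F : Type} [Field F] [NumberField F]

/-- `σ ∘ a` -/
def co (σ : F →+* ℂ) (a : Aut F) : F →+* ℂ := σ.comp (a : F →+* F)

/-- the field fixed by `A` -/
abbrev Fix (A : Subgroup (Aut F)) : Type := IntermediateField.fixedField A

noncomputable instance (priority := 2000) fixField (A : Subgroup (Aut F)) : Field (Fix A) :=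
  inferInstanceAs (Field (IntermediateField.fixedField A))

instance (priority := 2000) fixNF (A : Subgroup (Aut F)) : NumberField (Fix A) :=
  inferInstanceAs (NumberField (IntermediateField.fixedField A))

/-- its inclusion in `F` -/
def inc (A : Subgroup (Aut F)) : Fix A →+* F :=
  (IntermediateField.fixedField A).toSubfield.subtype

end

/-- a rational space of real functions on the embeddings, for every number field -/
structure Spaces where
  /-- the space -/
  sp : ∀ (F : Type) [Field F] [NumberField F], Submodule ℚ ((F →+* ℂ) → ℝ)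

/-- behaviour under complex conjugation -/
def Conj (n : ℕ) (K : Spaces) : Prop :=
  ∀ (F : Type) [Field F] [NumberField F], ∀ f ∈ K.sp F, ∀ σ : F →+* ℂ,
    f (ComplexEmbedding.conjugate σ) = (-1) ^ (n - 1) * f σ

/-- Borel: a lattice (a basis of `K.sp F` with nonzero determinant), and its covolume -/
def Borel (n : ℕ) (K : Spaces) : Prop :=
  ∀ (F : Type) [Field F] [NumberField F], ∃ b : Pl n F → (F →+* ℂ) → ℝ,
    Submodule.span ℚ (Set.range b) = K.sp F ∧ detOf n F b ≠ 0 ∧ Value n F (detOf n F b)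

/-- functoriality -/
def Natural (K : Spaces) : Prop :=
  ∀ (F F' : Type) [Field F] [NumberField F] [Field F'] [NumberField F'] (φ : F →+* F'),
    ∀ f ∈ K.sp F, (fun σ : F' →+* ℂ => f (σ.comp φ)) ∈ K.sp F'

/-- `f(σ ∘ a) = f(σ)` for `a` in `A` -/
def Fixed {F : Type} [Field F] [NumberField F] (A : Subgroup (Aut F)) (f : (F →+* ℂ) → ℝ) :
    Prop := ∀ a ∈ A, ∀ σ : F →+* ℂ, f (co σ a) = f σ

/-- `f` comes from the field fixed by `A` -/
def ComesFrom (K : Spaces) {F : Type} [Field F] [NumberField F] (A : Subgroup (Aut F))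
    (f : (F →+* ℂ) → ℝ) : Prop :=
  ∃ g ∈ K.sp (Fix A), ∀ σ : F →+* ℂ, f σ = g (σ.comp (inc A))

/-- Galois descent for `K_{2n-1}(F) ⊗ ℚ` -/
def Descent (K : Spaces) : Prop :=
  ∀ (F : Type) [Field F] [NumberField F] (A : Subgroup (Aut F)), ∀ f ∈ K.sp F,
    Fixed A f → ComesFrom K A f

/-- Beilinson-Deligne, de Jeu: elements of `ker δ_n` give elements of `K_{2n-1}(F) ⊗ ℚ`, whose
regulators are the values of `ℒ̃_n` -/
def Polylog (n : ℕ) (K : Spaces) : Prop :=
  ∀ (F : Type) [Field F] [NumberField F], ∀ α ∈ ker n F, pol n α ∈ K.sp F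

/-- The known theorems on the spaces `K.sp F`, generated over `ℚ` by the values of the Borel regulator at
all embeddings of `F` for the elements of `K_{2n-1}(F)`. -/
structure Facts (n : ℕ) (K : Spaces) : Prop where
  conj : Conj n K
  borel : Borel n K
  natural : Natural K
  descent : Descent K
  polylog : Polylog n K

/-- a noncyclic group whose order is a product of two primes -/
def NoncyclicPQ (G : Type) [Group G] : Prop :=
  ¬ IsCyclic G ∧ ∃ p q : ℕ, p.Prime ∧ q.Prime ∧ Nat.card G = p * q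

/-- all subgroups of order `p q`, `p` and `q` primes, are cyclic -/
def CycPQ (G : Type) [Group G] : Prop := ∀ A : Subgroup G, ¬ NoncyclicPQ A

/-- `F` is a CM field: some automorphism other than the identity is complex conjugation for every
embedding -/
def IsCM (F : Type) [Field F] [NumberField F] : Prop :=
  ∃ τ : Aut F, τ ≠ 1 ∧ ∀ (σ : F →+* ℂ) (x : F), σ (τ x) = starRingEnd ℂ (σ x)

/-- for odd `n`, `F` is not a CM field; for even `n`, `F` is not totally real -/
def Essential (n : ℕ) (F : Type) [Field F] [NumberField F] : Prop :=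
  (Odd n → ¬ IsCM F) ∧ (Even n → ¬ IsTotallyReal F)

section
variable {F : Type} [Field F] [NumberField F] {A : Subgroup (Aut F)}

/-- the homomorphisms `A → ℂ^*` -/
abbrev Chr (A : Subgroup (Aut F)) : Type := A →* ℂ

noncomputable instance (priority := 2000) subFin (A : Subgroup (Aut F)) : Fintype A :=
  Fintype.ofFinite A

/-- `χ` is injective -/
def Faithful (χ : Chr A) : Prop := Function.Injective χ

/-- the character sum `∑_{a ∈ A} χ(a) f(σ ∘ a)` -/
noncomputable def chiSum (χ : Chr A) (f : (F →+* ℂ) → ℝ) (σ : F →+* ℂ) : ℂ :=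
  ∑ a : A, χ a * (f (co σ a) : ℂ)

/-- `v` has the symmetries of the character sums of regulators:
`v(σ̄) = (-1)^{n-1} v(σ)` and `χ(a) v(σ ∘ a) = v(σ)` -/
def IsType (n : ℕ) (χ : Chr A) (v : (F →+* ℂ) → ℂ) : Prop :=
  (∀ σ, v (ComplexEmbedding.conjugate σ) = (-1) ^ (n - 1) * v σ) ∧
    ∀ (a : A) (σ : F →+* ℂ), χ a * v (co σ a) = v σ

/-- the character sums of the polylogarithms of elements of `ker δ_n` span all functions of this type -/
def Spanned (n : ℕ) (χ : Chr A) : Prop :=
  ∀ v, IsType n χ v → v ∈ Submodule.span ℂ {w | ∃ α ∈ ker n F, w = chiSum χ (pol n α)}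

end

/-- the conjecture for the fields fixed by the subgroups of `A` of prime order -/
def OverPrime (n : ℕ) {F : Type} [Field F] [NumberField F] (A : Subgroup (Aut F)) : Prop :=
  ∀ B ≤ A, (Nat.card B).Prime → Zagier n (Fix B)

/-- the sums span, for some (cyclic) group of automorphisms and a faithful character -/
def SomeSpanned (n : ℕ) (F : Type) [Field F] [NumberField F] : Prop :=
  ∃ (A : Subgroup (Aut F)) (χ : Chr A), Faithful χ ∧ Spanned n χ

/-- `F` is cyclic over `ℚ`, totally real if `n` is odd and totally complex if `n` is even -/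
def CyclicRightParity (n : ℕ) (F : Type) [Field F] [NumberField F] : Prop :=
  IsGalois ℚ F ∧ IsCyclic (Aut F) ∧ (Odd n → IsTotallyReal F) ∧ (Even n → IsTotallyComplex F)

/-- one character sum, for a faithful character of the whole group, does not vanish -/
def OneSum (n : ℕ) (F : Type) [Field F] [NumberField F] : Prop :=
  ∃ χ : Chr (⊤ : Subgroup (Aut F)), Faithful χ ∧
    ∃ α ∈ ker n F, ∃ σ : F →+* ℂ, chiSum χ (pol n α) σ ≠ 0

end Pool.Agent.H249.ZG
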