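import Pool.Agent.H249.ZG.Chi

/-! Character sums for cyclic groups of automorphisms decide. -/

set_option autoImplicit false
set_option linter.unusedSectionVars false

open NumberField Module Polynomial
open scoped Classical

namespace Pool.Agent.H249.ZG

section
variable {n : ℕ} {F : Type} [Field F] [NumberField F] {A : Subgroup (Aut F)}
variable {K : Spaces}

/-- Fourier inversion -/
theorem fourier (χ : Chr A) (hχ : Faithful χ) (x : (F →+* ℂ) → ℝ) :
    ∑ k ∈ Finset.range (Fintype.card A), chiSum (χ ^ k) x = (Fintype.card A : ℂ) • io x := by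
  funext σ
  rw [Finset.sum_apply]
  unfold chiSum
  rw [Finset.sum_comm]
  have h1 : ∀ a : A, ∑ k ∈ Finset.range (Fintype.card A),
      (χ ^ k) a * ((x (co σ a) : ℝ) : ℂ) =
      if a = 1 then (Fintype.card A : ℂ) * (x σ : ℂ) else 0 := by
    intro a
    rw [← Finset.sum_mul]
    simp_rw [MonoidHom.pow_apply]
    by_cases ha : a = 1
    · subst ha
      rw [if_pos rfl, map_one]
      simp only [one_pow, Finset.sum_const, Finset.card_range, nsmul_eq_mul, mul_one]
      rfl
    · rw [if_neg ha]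
      have h2 : χ a ≠ 1 := fun h => ha (hχ (by rw [h, map_one]))
      have h3 : (∑ k ∈ Finset.range (Fintype.card A), χ a ^ k) * (χ a - 1) = 0 := by
        rw [geom_sum_mul, ← map_pow, pow_card_eq_one, map_one, sub_self]
      rcases mul_eq_zero.1 h3 with h4 | h4
      · rw [h4, zero_mul]
      · exact absurd (sub_eq_zero.1 h4) h2
  rw [Finset.sum_congr rfl fun a _ => h1 a, Finset.sum_ite_eq' Finset.univ 1]
  simp only [Finset.mem_univ, if_true]
  rfl

/-- sums over subgroups -/
theorem norm_mem (hK : Facts n K) {B : Subgroup A} (hB : B ≠ ⊥)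
    (hZ : ∀ B' ≤ A, (Nat.card B').Prime → Zagier n (Fix B'))
    {x : (F →+* ℂ) → ℝ} (hx : x ∈ K.sp F) :
    (∑ a : A, if a ∈ B then tr (a : Aut F) x else 0) ∈ W n F ⊓ K.sp F := by
  have h1 : (∑ a : A, if a ∈ B then tr (a : Aut F) x else 0) ∈ K.sp F := by
    refine Submodule.sum_mem _ fun g _ => ?_
    split_ifs
    · exact tr_mem hK g hx
    · exact Submodule.zero_mem _
  have hle : B.map A.subtype ≤ A := by
    rintro _ ⟨y, -, rfl⟩
    exact y.2
  have hne : B.map A.subtype ≠ ⊥ := fun h' => hB (by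
    rwa [Subgroup.map_eq_bot_iff_of_injective _ A.subtype_injective] at h')
  refine ⟨desc_prime hK hle hne hZ h1 ?_, h1⟩
  rintro _ ⟨b, hb, rfl⟩ σ
  rw [Finset.sum_apply, Finset.sum_apply]
  have h2 : ∀ g : A, (if g ∈ B then tr (g : Aut F) x else 0)
      (co σ b) =
      (if b * g ∈ B then tr ((b * g : A) : Aut F) x else 0) σ := by
    intro g
    by_cases hg : g ∈ B
    · rw [if_pos hg, if_pos (B.mul_mem hb hg)]
      rfl
    · rw [if_neg hg, if_neg (fun h' => hg ((Subgroup.mul_mem_cancel_left B hb).1 h'))]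
      rfl
  refine (Finset.sum_congr rfl fun g _ => h2 g).trans ?_
  exact Fintype.sum_equiv (Equiv.mulLeft b) _ _ fun g => rfl

/-- **The sums over a cyclic group of automorphisms decide.** -/
theorem zagier_of_spanned (hK : Facts n K) (χ : Chr A) (hχ : Faithful χ)
    (hZ : ∀ B ≤ A, (Nat.card B).Prime → Zagier n (Fix B))
    (h : Spanned n χ) : Zagier n F := by
  obtain ⟨b, hb, hb0, -⟩ := hK.borel F
  rw [zagier_iff hK]
  intro x hx
  by_contra hxW
  have hxW' : x ∉ W n F ⊓ K.sp F := fun h' => hxW h'.1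
  obtain ⟨l, hlx, hlW⟩ := Submodule.exists_le_ker_of_notMem hxW'
  obtain ⟨Γ, hΓ⟩ := exists_ext hb0 l
  rw [hb] at hΓ
  have hcomm : ∀ a b : A, a * b = b * a := fun a b => hχ (by rw [map_mul, map_mul, mul_comm])
  set m := Fintype.card A with hm
  have hm0 : 0 < m := Fintype.card_pos
  have hpow : ∀ a, χ a ^ m = 1 := fun a => by rw [← map_pow, pow_card_eq_one, map_one]
  have hG : ∀ (ψ : Chr A), ∀ y ∈ K.sp F, Γ (chiSum ψ y) =
      ∑ a : A, ψ a * ((l (tr (a : Aut F) y) : ℚ) : ℂ) := by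
    intro ψ y hy
    rw [chiSum_eq, map_sum]
    refine Finset.sum_congr rfl fun a _ => ?_
    rw [map_smul, hΓ _ (tr_mem hK a hy), smul_eq_mul]
  have hmem : ∀ y ∈ W n F ⊓ K.sp F, ∀ a : Aut F, tr a y ∈ W n F ⊓ K.sp F := by
    rintro y ⟨⟨β, hβ, k, hk, he⟩, hy⟩ a
    refine ⟨⟨mp (a : F →+* F) β, ker_mp n _ hβ, k, hk, ?_⟩, tr_mem hK a hy⟩
    funext σ
    rw [pol_mp, ← he]
    rfl
  have hW0 : ∀ (ψ : Chr A), ∀ y ∈ W n F ⊓ K.sp F, Γ (chiSum ψ y) = 0 := by
    intro ψ y hy
    rw [hG ψ y hy.2]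
    refine Finset.sum_eq_zero fun a _ => ?_
    rw [show l (tr (a : Aut F) y) = 0 from hlW (hmem y hy a), Rat.cast_zero, mul_zero]
  have h1 : Γ (chiSum χ x) = 0 := by
    have h2 : Submodule.span ℂ {w | ∃ α ∈ ker n F, w = chiSum χ (pol n α)} ≤ LinearMap.ker Γ := by
      rw [Submodule.span_le]
      rintro _ ⟨α, hα, rfl⟩
      exact hW0 χ _ ⟨mem_W_of_pol hα, hK.polylog F α hα⟩
    exact h2 (h _ (chiSum_type hK χ hx))
  have key : ∀ k, Γ (chiSum (χ ^ k) x) = 0 := by
    intro k
    by_cases hk : k.Coprime m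
    · rw [hG χ x hx] at h1
      rw [hG (χ ^ k) x hx]
      have h3 := galois_scalar (fun a => χ a) hm0 hpow hk (fun a => l (tr (a : Aut F) x)) h1
      simpa only [MonoidHom.pow_apply] using h3
    · obtain ⟨p, hp, hpk, hpm⟩ := Nat.Prime.not_coprime_iff_dvd.1 hk
      have : Fact p.Prime := ⟨hp⟩
      obtain ⟨a, ha⟩ := exists_prime_orderOf_dvd_card p hpm
      obtain ⟨B, hB⟩ : ∃ B : Subgroup A, B = (χ ^ k).ker := ⟨_, rfl⟩
      have haB : a ∈ B := by
        rw [hB, MonoidHom.mem_ker, MonoidHom.pow_apply, ← map_pow,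
          orderOf_dvd_iff_pow_eq_one.1 (ha ▸ hpk), map_one]
      have hBne : B ≠ ⊥ := by
        intro h'
        rw [h', Subgroup.mem_bot] at haB
        rw [haB, orderOf_one] at ha
        exact hp.one_lt.ne ha
      have hy := norm_mem hK hBne hZ hx
      have h1 : chiSum (χ ^ k) (∑ a : A, if a ∈ B then tr (a : Aut F) x else 0) =
          ((Finset.univ.filter fun a : A => a ∈ B).card : ℂ) • chiSum (χ ^ k) x := by
        rw [chiSum_sum]
        have h2 : ∀ a : A, chiSum (χ ^ k) (if a ∈ B then tr (a : Aut F) x else 0) =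
            if a ∈ B then chiSum (χ ^ k) x else 0 := by
          intro a
          by_cases ha : a ∈ B
          · rw [if_pos ha, if_pos ha]
            funext σ
            have h5 : (χ ^ k) a = 1 := by
              rw [hB] at ha
              exact ha
            rw [← chiSum_tr (χ ^ k) x σ a hcomm, h5, one_mul]
          · rw [if_neg ha, if_neg ha, chiSum_zero]
        rw [Finset.sum_congr rfl fun a _ => h2 a, ← Finset.sum_filter, Finset.sum_const,
          Nat.cast_smul_eq_nsmul]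
      have h3 : ((Finset.univ.filter fun a : A => a ∈ B).card : ℂ) ≠ 0 := by
        rw [Nat.cast_ne_zero]
        exact (Finset.card_pos.2 ⟨a, Finset.mem_filter.2 ⟨Finset.mem_univ _, haB⟩⟩).ne'
      have h4 := hW0 (χ ^ k) _ hy
      rw [h1, map_smul, smul_eq_mul] at h4
      exact (mul_eq_zero.1 h4).resolve_left h3
  have h5 : Γ ((m : ℂ) • io x) = 0 := by
    rw [← fourier χ hχ x, map_sum]
    exact Finset.sum_eq_zero fun k _ => key k
  rw [map_smul, smul_eq_mul, hΓ x hx] at h5
  rcases mul_eq_zero.1 h5 with h6 | h6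
  · exact hm0.ne' (by exact_mod_cast h6)
  · exact hlx (by exact_mod_cast h6)

/-- **The converse.** -/
theorem spanned_of_zagier (hn : 2 ≤ n) (hK : Facts n K) (χ : Chr A) (hZ : Zagier n F) :
    Spanned n χ := by
  intro v hv
  obtain ⟨b, hb, hb0, -⟩ := hK.borel F
  obtain ⟨u, hu⟩ := parity_span hK hb hn hb0 hv.1
  have h1 : (Fintype.card A : ℂ) • v = ∑ i, u i • chiSum χ (b i) := by
    funext σ
    have h2 : (Fintype.card A : ℂ) * v σ =
        ∑ a : A, χ a * v (co σ a) := by
      rw [Finset.sum_congr rfl fun a _ => hv.2 a σ, Finset.sum_const, Finset.card_univ,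
        nsmul_eq_mul]
    rw [Pi.smul_apply, smul_eq_mul, h2, hu]
    simp only [Finset.sum_apply, Pi.smul_apply, smul_eq_mul, Finset.mul_sum]
    rw [Finset.sum_comm]
    refine Finset.sum_congr rfl fun i _ => ?_
    unfold chiSum io
    rw [Finset.mul_sum]
    refine Finset.sum_congr rfl fun a _ => ?_
    ring
  have h3 : (Fintype.card A : ℂ) ≠ 0 := Nat.cast_ne_zero.2 Fintype.card_pos.ne'
  rw [← (Submodule.span ℂ {w | ∃ α ∈ ker n F, w = chiSum χ (pol n α)}).smul_mem_iff h3, h1]
  refine Submodule.sum_mem _ fun i _ => Submodule.smul_mem _ _ ?_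
  obtain ⟨α, hα, m, hm, he⟩ := (zagier_iff hK).1 hZ
    (show b i ∈ K.sp F by rw [← hb]; exact Submodule.subset_span ⟨i, rfl⟩)
  have h4 : (m : ℂ) ≠ 0 := by exact_mod_cast hm
  rw [← (Submodule.span ℂ {w | ∃ α ∈ ker n F, w = chiSum χ (pol n α)}).smul_mem_iff h4,
    ← chiSum_zsmul, he]
  exact Submodule.subset_span ⟨α, hα, rfl⟩

end

end Pool.Agent.H249.ZG
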