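import Pool.Agent.H249.ZG.Ab

/-! The reduction with character sums, for all number fields. -/

set_option autoImplicit false
set_option linter.unusedSectionVars false

open NumberField Module
open scoped Classical

namespace Pool.Agent.H249.ZG

section
variable {n : ℕ}
variable {K : Spaces}

/-- **All number fields.** -/
theorem from_spanned (hK : Facts n K) (D : ℕ) : ∀ (F : Type) [Field F] [NumberField F],
    finrank ℚ F < D →
    (∀ (F' : Type) [Field F'] [NumberField F'], (F' →+* F) → CycPQ (Aut F') →
      Essential n F' → SomeSpanned n F') → Zagier n F := by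
  induction D with
  | zero => intro F _ _ h; exact absurd h (Nat.not_lt_zero _)
  | succ D ih =>
    intro F _ _ hD h
    refine from_subfields hK fun F' _ _ φ hcyc hess => ?_
    obtain ⟨A, χ, hχ, hsp⟩ := h F' φ hcyc hess
    refine zagier_of_spanned hK χ hχ ?_ hsp
    intro B _ hB
    have hB := ne_bot_of_prime hB
    let _ : Algebra F' F := φ.toAlgebra
    refine ih (Fix B) ?_ fun F'' _ _ ψ hc' => ?_
    · have h1 := finrank_mul_finrank ℚ (IntermediateField.fixedField B) F'
      rw [IntermediateField.finrank_fixedField_eq_card] at h1
      have h2 : 1 < Nat.card B := by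
        rw [Finite.one_lt_card_iff_nontrivial]
        exact (Subgroup.nontrivial_iff_ne_bot B).2 hB
      have h3 : 0 < finrank ℚ (IntermediateField.fixedField B) := finrank_pos
      have h4 : finrank ℚ (IntermediateField.fixedField B) < finrank ℚ F' := by nlinarith
      have h5 := finrank_mul_finrank ℚ F' F
      have h6 : 0 < finrank F' F := finrank_pos
      have h7 : finrank ℚ F' ≤ finrank ℚ F := by nlinarith
      exact lt_of_lt_of_le h4 (h7.trans (Nat.lt_succ_iff.1 hD))
    · exact h F'' (φ.comp ((inc B).comp ψ)) hc'

end

end Pool.Agent.H249.ZG
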