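import Pool.Agent.H249.ZG.Defs

/-! Functoriality of `ker δ_n`. -/

set_option autoImplicit false

open NumberField OnePoint Polynomial
open scoped TensorProduct Classical nonZeroDivisors

namespace Pool.Agent.H249.ZG

section
variable {F F' : Type} [Field F] [Field F']

theorem value_div (c : F) {p q : F[X]} (hq : q ≠ 0) (h : IsCoprime p q) :
    value c (algebraMap F[X] (RatFunc F) p / algebraMap F[X] (RatFunc F) q) =
      if q.eval c = 0 then ∞ else ((p.eval c / q.eval c : F) : OnePoint F) := by
  set f := algebraMap F[X] (RatFunc F) p / algebraMap F[X] (RatFunc F) q with hf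
  have hd : f.denom ≠ 0 := f.denom_ne_zero
  have h1 : f.num * q = p * f.denom := by
    have h2 : algebraMap F[X] (RatFunc F) f.num / algebraMap F[X] (RatFunc F) f.denom =
        algebraMap F[X] (RatFunc F) p / algebraMap F[X] (RatFunc F) q := f.num_div_denom
    rw [div_eq_div_iff (by simpa using hd) (by simpa using hq), ← map_mul, ← map_mul] at h2
    exact RatFunc.algebraMap_injective F h2
  have hcop := f.isCoprime_num_denom
  have h3 : q ∣ f.denom := h.symm.dvd_of_dvd_mul_left ⟨f.num, by rw [← h1]; ring⟩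
  have h4 : f.denom ∣ q := hcop.symm.dvd_of_dvd_mul_left ⟨p, by rw [h1]; ring⟩
  obtain ⟨u, hu⟩ := associated_of_dvd_dvd h4 h3
  have h5 : p = f.num * u := by
    have : f.denom * p = f.denom * (f.num * u) := by
      rw [mul_comm f.denom p, ← h1, ← hu]; ring
    exact mul_left_cancel₀ hd this
  have hu0 : (u : F[X]).eval c ≠ 0 := ((Units.map (evalRingHom c).toMonoidHom u)).ne_zero
  have h6 : q.eval c = f.denom.eval c * (u : F[X]).eval c := by rw [← hu, eval_mul]
  have h7 : p.eval c = f.num.eval c * (u : F[X]).eval c := by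
    conv_lhs => rw [h5]
    rw [eval_mul]
  unfold value
  by_cases h8 : f.denom.eval c = 0
  · rw [if_pos h8, if_pos (by rw [h6, h8, zero_mul])]
  · rw [if_neg h8, if_neg (by rw [h6]; exact mul_ne_zero h8 hu0), h6, h7,
      mul_div_mul_right _ _ hu0]

theorem comap_le (φ : F →+* F') : F[X]⁰ ≤ F'[X]⁰.comap (Polynomial.mapRingHom φ) :=
  nonZeroDivisors_le_comap_nonZeroDivisors_of_injective _ (Polynomial.map_injective φ φ.injective)

/-- `F(t) → F'(t)` -/
noncomputable def rmap (φ : F →+* F') : RatFunc F →+* RatFunc F' :=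
  RatFunc.mapRingHom (Polynomial.mapRingHom φ) (comap_le φ)

theorem value_map (φ : F →+* F') (c : F) (f : RatFunc F) :
    value (φ c) (rmap φ f) = OnePoint.map φ (value c f) := by
  have h1 : rmap φ f = algebraMap F'[X] (RatFunc F') (f.num.map φ) /
      algebraMap F'[X] (RatFunc F') (f.denom.map φ) := by
    rw [rmap, RatFunc.coe_mapRingHom_eq_coe_map, RatFunc.map_apply]
    rfl
  rw [h1, value_div (φ c) (by
    rw [Ne, Polynomial.map_eq_zero]; exact f.denom_ne_zero)
    (by simpa using (f.isCoprime_num_denom).map (Polynomial.mapRingHom φ))]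
  unfold value
  rw [eval_map_apply, eval_map_apply]
  by_cases h : f.denom.eval c = 0
  · rw [if_pos (by rw [h, map_zero]), if_pos h, OnePoint.map_infty]
  · rw [if_neg (by rwa [map_eq_zero]), if_neg h, OnePoint.map_some, map_div₀]

theorem spec_mp (φ : F →+* F') (c : F) (α : Sym (RatFunc F)) :
    spec (φ c) (mp (rmap φ) α) = mp φ (spec c α) := by
  have h : (spec (φ c)).comp (mp (rmap φ)) = (mp φ).comp (spec c) := by
    refine FreeAbelianGroup.lift_ext _ _ fun z => ?_
    change spec (φ c) (mp (rmap φ) (.of z)) = mp φ (spec c (.of z))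
    unfold spec mp
    rw [FreeAbelianGroup.map_of_apply, FreeAbelianGroup.map_of_apply,
      FreeAbelianGroup.map_of_apply, FreeAbelianGroup.map_of_apply]
    congr 1
    induction z using OnePoint.rec with
    | infty => rfl
    | coe f => exact value_map φ c f
  exact DFunLike.congr_fun h α

theorem mp_sy (φ : F →+* F') (x : F) : mp φ (sy x) = sy (φ x) := by
  unfold mp sy
  rw [FreeAbelianGroup.map_of_apply, OnePoint.map_some]

theorem mp_inf (φ : F →+* F') : mp φ (.of ∞) = .of ∞ := by
  unfold mp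
  rw [FreeAbelianGroup.map_of_apply, OnePoint.map_infty]

theorem mp_comp {F'' : Type} [Field F''] (φ : F →+* F') (ψ : F' →+* F'') (α : Sym F) :
    mp ψ (mp φ α) = mp (ψ.comp φ) α := by
  unfold mp
  rw [← FreeAbelianGroup.map_comp_apply]
  congr 1
  congr 1
  funext z
  induction z using OnePoint.rec with
  | infty => rfl
  | coe f => rfl

/-- `F^* → F'^*` -/
noncomputable def um (φ : F →+* F') : Mult F →+ Mult F' :=
  MonoidHom.toAdditive (Units.map (φ : F →* F'))

theorem um_un (φ : F →+* F') (x : F) : um φ (un x) = un (φ x) := by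
  unfold un
  by_cases h : x = 0
  · have h' : φ x = 0 := by rw [h, map_zero]
    rw [dif_pos h, dif_pos h']
    change Additive.ofMul (Units.map (φ : F →* F') 1) = _
    rw [map_one]
  · have h' : φ x ≠ 0 := by rwa [Ne, map_eq_zero]
    rw [dif_neg h, dif_neg h']
    change Additive.ofMul (Units.map (φ : F →* F') (Units.mk0 x h)) = _
    congr 1
    ext
    rfl

theorem cond_iff (φ : F →+* F') (x : F) : (φ x = 0 ∨ φ x = 1) ↔ (x = 0 ∨ x = 1) := by
  rw [map_eq_zero, map_eq_one_iff φ φ.injective]

theorem onSym_mp (φ : F →+* F') {M M' : Type} [AddCommGroup M] [AddCommGroup M'] (g : F → M)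
    (g' : F' → M') (θ : M →+ M') (h : ∀ x, g' (φ x) = θ (g x)) (α : Sym F) :
    onSym g' (mp φ α) = θ (onSym g α) := by
  have h1 : (onSym g').comp (mp φ) = θ.comp (onSym g) := by
    refine FreeAbelianGroup.lift_ext _ _ fun z => ?_
    change onSym g' (mp φ (.of z)) = θ (onSym g (.of z))
    unfold onSym mp
    rw [FreeAbelianGroup.map_of_apply, FreeAbelianGroup.lift_apply_of,
      FreeAbelianGroup.lift_apply_of]
    induction z using OnePoint.rec with
    | infty =>
      rw [OnePoint.map_infty, OnePoint.elim_infty, OnePoint.elim_infty, map_zero]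
    | coe x =>
      rw [OnePoint.map_some, OnePoint.elim_some, OnePoint.elim_some]
      by_cases hx : x = 0 ∨ x = 1
      · rw [if_pos hx, if_pos ((cond_iff φ x).2 hx), map_zero]
      · rw [if_neg hx, if_neg (fun h => hx ((cond_iff φ x).1 h)), h]
  exact DFunLike.congr_fun h1 α

/-- the map on tensor products -/
noncomputable def tmap {A B A' B' : Type} [AddCommGroup A] [AddCommGroup B] [AddCommGroup A']
    [AddCommGroup B'] (f : A →+ A') (g : B →+ B') : Tens A B →+ Tens A' B' :=
  (TensorProduct.map f.toIntLinearMap g.toIntLinearMap).toAddMonoidHom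

theorem tmap_tm {A B A' B' : Type} [AddCommGroup A] [AddCommGroup B] [AddCommGroup A']
    [AddCommGroup B'] (f : A →+ A') (g : B →+ B') (a : A) (b : B) :
    tmap f g (tm a b) = tm (f a) (g b) := TensorProduct.map_tmul _ _ _ _

theorem alt_le {A A' : Type} [AddCommGroup A] [AddCommGroup A'] (f : A →+ A') :
    alt A ≤ (alt A').comap (tmap f f) := by
  unfold alt
  rw [AddSubgroup.closure_le]
  rintro _ ⟨a, rfl⟩
  refine AddSubgroup.subset_closure ⟨f a, tmap_tm f f a a⟩

theorem delta2_mp (φ : F →+* F') (α : Sym F) : delta2 (mp φ α) =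
    QuotientAddGroup.map (alt (Mult F)) (alt (Mult F')) (tmap (um φ) (um φ)) (alt_le (um φ))
      (delta2 α) := by
  refine onSym_mp φ _ _ _ (fun x => ?_) α
  change wd (un (1 - φ x)) (un (φ x)) = QuotientAddGroup.mk (tmap (um φ) (um φ)
    (tm (un (1 - x)) (un x)))
  rw [tmap_tm, um_un, um_un, map_sub, map_one]
  rfl

theorem delta_mp (φ : F →+* F') {S : AddSubgroup (Sym F)} {S' : AddSubgroup (Sym F')}
    (h : S ≤ S'.comap (mp φ)) (α : Sym F) :
    delta S' (mp φ α) = tmap (QuotientAddGroup.map S S' (mp φ) h) (um φ) (delta S α) := by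
  refine onSym_mp φ _ _ _ (fun x => ?_) α
  rw [tmap_tm, um_un]
  congr 1

theorem rel_mp (φ : F →+* F') {Z : AddSubgroup (Sym (RatFunc F))}
    {Z' : AddSubgroup (Sym (RatFunc F'))} (h : ∀ α ∈ Z, mp (rmap φ) α ∈ Z') :
    rel Z ≤ (rel Z').comap (mp φ) := by
  unfold rel
  rw [AddSubgroup.closure_le]
  rintro a (ha | ⟨α, hα, rfl⟩)
  · refine AddSubgroup.subset_closure (Or.inl ?_)
    rcases ha with rfl | ha
    · rw [mp_sy, map_zero]
      exact Set.mem_insert _ _
    · rw [Set.mem_singleton_iff.1 ha, mp_inf]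
      exact Set.mem_insert_of_mem _ rfl
  · refine AddSubgroup.subset_closure (Or.inr ⟨mp (rmap φ) α, h α hα, ?_⟩)
    rw [map_sub, ← spec_mp, ← spec_mp, map_zero, map_one]

end

/-- a family of subgroups which is preserved by homomorphisms of fields -/
def Funct (Z : Kers) : Prop := ∀ (F F' : Type) [Field F] [Field F'] (φ : F →+* F'),
  ∀ α ∈ Z.sub F, mp φ α ∈ Z.sub F'

theorem funct_ker2 : Funct ker2 := by
  intro F F' _ _ φ α hα
  have h : delta2 α = 0 := hα
  change delta2 (mp φ α) = 0
  rw [delta2_mp, h, map_zero]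

theorem funct_step {Z : Kers} (hZ : Funct Z) : Funct (step Z) := by
  intro F F' _ _ φ α hα
  have h : delta (rel (Z.sub (RatFunc F))) α = 0 := hα
  change delta (rel (Z.sub (RatFunc F'))) (mp φ α) = 0
  rw [delta_mp φ (rel_mp φ fun β hβ => hZ _ _ (rmap φ) β hβ), h, map_zero]

theorem ker_mp (n : ℕ) {F F' : Type} [Field F] [Field F'] (φ : F →+* F') {α : Sym F}
    (h : α ∈ ker n F) : mp φ α ∈ ker n F' := by
  have h1 : ∀ k, Funct (step^[k] ker2) := by
    intro k
    induction k with
    | zero => exact funct_ker2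
    | succ k ih =>
      rw [Function.iterate_succ_apply']
      exact funct_step ih
  exact h1 (n - 2) F F' φ α h

theorem pol_mp (n : ℕ) {F F' : Type} [Field F] [Field F'] (φ : F →+* F') (α : Sym F)
    (σ : F' →+* ℂ) : pol n (mp φ α) σ = pol n α (σ.comp φ) := by
  unfold pol
  rw [mp_comp]

theorem pol_add (n : ℕ) {F : Type} [Field F] (α β : Sym F) :
    pol n (α + β) = pol n α + pol n β := by
  funext σ
  simp only [pol, map_add, Pi.add_apply]

theorem pol_zsmul (n : ℕ) {F : Type} [Field F] (m : ℤ) (α : Sym F) :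
    pol n (m • α) = m • pol n α := by
  funext σ
  simp only [pol, map_zsmul, Pi.smul_apply]

theorem pol_zero (n : ℕ) {F : Type} [Field F] : pol n (0 : Sym F) = 0 := by
  funext σ
  simp only [pol, map_zero, Pi.zero_apply]

end Pool.Agent.H249.ZG
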