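import Pool.Agent.H249.ZG.Defs

/-! The surjectivity of `ker δ_n ⊗ ℚ → K_{2n-1}(F) ⊗ ℚ` for number fields. -/

set_option autoImplicit false

open NumberField

namespace Pool.Agent.H249.ZG

/-- `l_n : ker δ_n ⊗ ℚ → K_{2n-1}(F) ⊗ ℚ` is surjective: a nonzero multiple of each regulator function
`f` in `K.sp F` is the function `σ ↦ ℒ̃_n(σ(α))` of an element `α` of `ker δ_n` -/
def Onto (n : ℕ) (K : Spaces) (F : Type) [Field F] [NumberField F] : Prop :=
  ∀ f ∈ K.sp F, ∃ α ∈ ker n F, ∃ m : ℤ, m ≠ 0 ∧ ∀ σ : F →+* ℂ, m * f σ = pol n α σ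

/-- surjectivity for the fields fixed by the subgroups of `A` of prime order -/
def OntoPrime (n : ℕ) (K : Spaces) {F : Type} [Field F] [NumberField F] (A : Subgroup (Aut F)) :
    Prop := ∀ B ≤ A, (Nat.card B).Prime → Onto n K (Fix B)

end Pool.Agent.H249.ZG
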